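import Pool.Agent.Lib.MP_ea7ca7_co.Scale

namespace Pool.Agent.Lib.MP_ea7ca7_co

/-- an affine map `ℝ² → ℝ³` with integer coefficients -/
structure Fr where
  a0 : ℤ
  b0 : ℤ
  c0 : ℤ
  a1 : ℤ
  b1 : ℤ
  c1 : ℤ
  a2 : ℤ
  b2 : ℤ
  c2 : ℤ

noncomputable def Fr.app (g : Fr) (x : Plane) : Space :=
  !₂[g.a0 * x 0 + g.b0 * x 1 + g.c0, g.a1 * x 0 + g.b1 * x 1 + g.c1, g.a2 * x 0 + g.b2 * x 1 + g.c2]

def Fr.dbl (g : Fr) (u : ℤ × ℤ) : ℤ × ℤ × ℤ :=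
  (g.a0 * u.1 + g.b0 * u.2 + 2 * g.c0, g.a1 * u.1 + g.b1 * u.2 + 2 * g.c1,
    g.a2 * u.1 + g.b2 * u.2 + 2 * g.c2)

def pm (a : ℤ) : Prop := a = 1 ∨ a = -1

instance (a : ℤ) : Decidable (pm a) := by unfold pm; infer_instance

/-- the linear part is a signed coordinate embedding -/
def Fr.ok (g : Fr) : Prop :=
  (pm g.a0 ∧ g.b0 = 0 ∧ g.a1 = 0 ∧ pm g.b1 ∧ g.a2 = 0 ∧ g.b2 = 0) ∨
  (pm g.a0 ∧ g.b0 = 0 ∧ g.a1 = 0 ∧ g.b1 = 0 ∧ g.a2 = 0 ∧ pm g.b2) ∨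
  (g.a0 = 0 ∧ pm g.b0 ∧ pm g.a1 ∧ g.b1 = 0 ∧ g.a2 = 0 ∧ g.b2 = 0) ∨
  (g.a0 = 0 ∧ g.b0 = 0 ∧ pm g.a1 ∧ g.b1 = 0 ∧ g.a2 = 0 ∧ pm g.b2) ∨
  (g.a0 = 0 ∧ pm g.b0 ∧ g.a1 = 0 ∧ g.b1 = 0 ∧ pm g.a2 ∧ g.b2 = 0) ∨
  (g.a0 = 0 ∧ g.b0 = 0 ∧ g.a1 = 0 ∧ pm g.b1 ∧ pm g.a2 ∧ g.b2 = 0)

instance (g : Fr) : Decidable g.ok := by unfold Fr.ok; infer_instance

lemma Fr.ok.coords {g : Fr} (hg : g.ok) :
    ((pm g.a0 ∧ g.b0 = 0) ∨ (g.a0 = 0 ∧ pm g.b0) ∨ (g.a0 = 0 ∧ g.b0 = 0)) ∧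
    ((pm g.a1 ∧ g.b1 = 0) ∨ (g.a1 = 0 ∧ pm g.b1) ∨ (g.a1 = 0 ∧ g.b1 = 0)) ∧
    ((pm g.a2 ∧ g.b2 = 0) ∨ (g.a2 = 0 ∧ pm g.b2) ∨ (g.a2 = 0 ∧ g.b2 = 0)) := by
  rcases hg with ⟨h1, h2, h3, h4, h5, h6⟩ | ⟨h1, h2, h3, h4, h5, h6⟩ | ⟨h1, h2, h3, h4, h5, h6⟩ |
    ⟨h1, h2, h3, h4, h5, h6⟩ | ⟨h1, h2, h3, h4, h5, h6⟩ | ⟨h1, h2, h3, h4, h5, h6⟩ <;>
  simp only [h1, h2, h3, h4, h5, h6, and_self, true_or, or_true]

/-- index of the stratum of a real number -/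
noncomputable def st (t : ℝ) : ℤ := ⌊t⌋ + ⌈t⌉

lemma st_add (t : ℝ) (c : ℤ) : st (t + c) = st t + 2 * c := by
  unfold st; rw [Int.floor_add_intCast, Int.ceil_add_intCast]; ring

lemma st_neg (t : ℝ) : st (-t) = - st t := by
  unfold st; rw [Int.floor_neg, Int.ceil_neg]; ring

lemma st_zero : st 0 = 0 := by simp [st]

lemma st_mem (t : ℝ) (c : ℤ) : ((c : ℝ) ≤ t ∧ t ≤ c + 1) ↔ (2 * c ≤ st t ∧ st t ≤ 2 * c + 2) := by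
  unfold st
  have h1 : ⌊t⌋ ≤ ⌈t⌉ := Int.floor_le_ceil t
  have h2 : ⌈t⌉ ≤ ⌊t⌋ + 1 := Int.ceil_le_floor_add_one t
  have h3 : (c : ℝ) ≤ t ↔ c ≤ ⌊t⌋ := Int.le_floor.symm
  have h4 : t ≤ (c : ℝ) + 1 ↔ ⌈t⌉ ≤ c + 1 := by
    rw [Int.ceil_le]; push_cast; rfl
  rw [h3, h4]
  omega

noncomputable def st2 (x : Plane) : ℤ × ℤ := (st (x 0), st (x 1))
noncomputable def st3 (z : Space) : ℤ × ℤ × ℤ := (st (z 0), st (z 1), st (z 2))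

def inCl (c u : ℤ × ℤ) : Prop :=
  2 * c.1 ≤ u.1 ∧ u.1 ≤ 2 * c.1 + 2 ∧ 2 * c.2 ≤ u.2 ∧ u.2 ≤ 2 * c.2 + 2

instance (c u : ℤ × ℤ) : Decidable (inCl c u) := by unfold inCl; infer_instance

lemma mem_sq_iff (c : ℤ × ℤ) (x : Plane) : x ∈ unitSquare c ↔ inCl c (st2 x) := by
  have a := st_mem (x 0) c.1
  have b := st_mem (x 1) c.2
  simp only [unitSquare, Set.mem_ofPred_eq, inCl, st2]
  tauto

lemma st_lin (a b c : ℤ) (h : (pm a ∧ b = 0) ∨ (a = 0 ∧ pm b) ∨ (a = 0 ∧ b = 0)) (s t : ℝ) :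
    st (a * s + b * t + c) = a * st s + b * st t + 2 * c := by
  rw [st_add]
  rcases h with ⟨h | h, h'⟩ | ⟨h', h | h⟩ | ⟨h, h'⟩ <;> subst h <;> subst h' <;>
    simp [st_neg, st_zero]

lemma st3_app (g : Fr) (hg : g.ok) (x : Plane) : st3 (g.app x) = g.dbl (st2 x) := by
  simp only [st3, Fr.app, Fr.dbl, st2]
  simp only [Matrix.cons_val_zero, Matrix.cons_val_one, Matrix.cons_val]
  rw [st_lin _ _ _ hg.coords.1, st_lin _ _ _ hg.coords.2.1, st_lin _ _ _ hg.coords.2.2]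

lemma app_dist (g : Fr) (hg : g.ok) (x y : Plane) : dist (g.app x) (g.app y) = dist x y := by
  rw [EuclideanSpace.dist_eq, EuclideanSpace.dist_eq]
  congr 1
  simp only [Fin.sum_univ_three, Fin.sum_univ_two, Fr.app, Real.dist_eq, sq_abs]
  simp only [Matrix.cons_val_zero, Matrix.cons_val_one, Matrix.cons_val]
  rcases hg with ⟨h1 | h1, h2, h3, h4 | h4, h5, h6⟩ | ⟨h1 | h1, h2, h3, h4, h5, h6 | h6⟩ |
    ⟨h1, h2 | h2, h3 | h3, h4, h5, h6⟩ | ⟨h1, h2, h3 | h3, h4, h5, h6 | h6⟩ |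
    ⟨h1, h2 | h2, h3, h4, h5 | h5, h6⟩ | ⟨h1, h2, h3, h4 | h4, h5 | h5, h6⟩ <;>
  rw [h1, h2, h3, h4, h5, h6] <;> push_cast <;> ring

lemma lin_zero (a b c : ℤ) (s t : ℝ)
    (h1 : a * (2 * ⌊s⌋) + b * (2 * ⌊t⌋) + 2 * c = 0)
    (h2 : a * (2 * ⌈s⌉) + b * (2 * ⌊t⌋) + 2 * c = 0)
    (h3 : a * (2 * ⌊s⌋) + b * (2 * ⌈t⌉) + 2 * c = 0) : (a : ℝ) * s + b * t + c = 0 := by
  have e1 : (a : ℝ) * (s - ⌊s⌋) = 0 := by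
    have : a * (⌈s⌉ - ⌊s⌋) = 0 := by linarith
    rcases mul_eq_zero.1 this with h | h
    · simp [h]
    · have h' : ⌈s⌉ = ⌊s⌋ := by omega
      have := Int.le_ceil s
      have := Int.floor_le s
      have : s - ⌊s⌋ = 0 := by rw [h'] at *; linarith
      simp [this]
  have e2 : (b : ℝ) * (t - ⌊t⌋) = 0 := by
    have : b * (⌈t⌉ - ⌊t⌋) = 0 := by linarith
    rcases mul_eq_zero.1 this with h | h
    · simp [h]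
    · have h' : ⌈t⌉ = ⌊t⌋ := by omega
      have := Int.le_ceil t
      have := Int.floor_le t
      have : t - ⌊t⌋ = 0 := by rw [h'] at *; linarith
      simp [this]
  have e3 : (a : ℝ) * (2 * ⌊s⌋) + b * (2 * ⌊t⌋) + 2 * c = 0 := by exact_mod_cast h1
  nlinarith

lemma floor_ceil_mem (t : ℝ) (c : ℤ) (h1 : (c : ℝ) ≤ t) (h2 : t ≤ c + 1) :
    c ≤ ⌊t⌋ ∧ ⌊t⌋ ≤ c + 1 ∧ c ≤ ⌈t⌉ ∧ ⌈t⌉ ≤ c + 1 := by
  have a : ⌊t⌋ ≤ ⌈t⌉ := Int.floor_le_ceil t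
  have b : c ≤ ⌊t⌋ := Int.le_floor.2 h1
  have d : ⌈t⌉ ≤ c + 1 := by rw [Int.ceil_le]; push_cast; exact h2
  omega

lemma app_agree (g h : Fr) (c d : ℤ × ℤ) (x : Plane) (hc : x ∈ unitSquare c) (hd : x ∈ unitSquare d)
    (H : ∀ u, inCl c u → inCl d u → g.dbl u = h.dbl u) : g.app x = h.app x := by
  obtain ⟨c1, c2, c3, c4⟩ := hc
  obtain ⟨d1, d2, d3, d4⟩ := hd
  have p1 := floor_ceil_mem _ _ c1 c2
  have p2 := floor_ceil_mem _ _ c3 c4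
  have q1 := floor_ceil_mem _ _ d1 d2
  have q2 := floor_ceil_mem _ _ d3 d4
  have H1 := H (2 * ⌊x 0⌋, 2 * ⌊x 1⌋) (by unfold inCl; simp only; omega) (by unfold inCl; simp only; omega)
  have H2 := H (2 * ⌈x 0⌉, 2 * ⌊x 1⌋) (by unfold inCl; simp only; omega) (by unfold inCl; simp only; omega)
  have H3 := H (2 * ⌊x 0⌋, 2 * ⌈x 1⌉) (by unfold inCl; simp only; omega) (by unfold inCl; simp only; omega)
  simp only [Fr.dbl, Prod.mk.injEq] at H1 H2 H3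
  have k0 := lin_zero (g.a0 - h.a0) (g.b0 - h.b0) (g.c0 - h.c0) (x 0) (x 1)
    (by linarith [H1.1]) (by linarith [H2.1]) (by linarith [H3.1])
  have k1 := lin_zero (g.a1 - h.a1) (g.b1 - h.b1) (g.c1 - h.c1) (x 0) (x 1)
    (by linarith [H1.2.1]) (by linarith [H2.2.1]) (by linarith [H3.2.1])
  have k2 := lin_zero (g.a2 - h.a2) (g.b2 - h.b2) (g.c2 - h.c2) (x 0) (x 1)
    (by linarith [H1.2.2]) (by linarith [H2.2.2]) (by linarith [H3.2.2])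
  push_cast at k0 k1 k2
  ext i
  fin_cases i <;> simp [Fr.app] <;> linarith

/-- the square `c` is mapped into the surface of the cube of edge `l` -/
def intoOK (l : ℤ) (c : ℤ × ℤ) (g : Fr) : Prop :=
  let p := g.dbl (2 * c.1, 2 * c.2)
  let q := g.dbl (2 * c.1 + 2, 2 * c.2 + 2)
  let m := g.dbl (2 * c.1 + 1, 2 * c.2 + 1)
  (0 ≤ p.1 ∧ p.1 ≤ 2 * l ∧ 0 ≤ p.2.1 ∧ p.2.1 ≤ 2 * l ∧ 0 ≤ p.2.2 ∧ p.2.2 ≤ 2 * l) ∧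
  (0 ≤ q.1 ∧ q.1 ≤ 2 * l ∧ 0 ≤ q.2.1 ∧ q.2.1 ≤ 2 * l ∧ 0 ≤ q.2.2 ∧ q.2.2 ≤ 2 * l) ∧
  (m.1 = 0 ∨ m.1 = 2 * l ∨ m.2.1 = 0 ∨ m.2.1 = 2 * l ∨ m.2.2 = 0 ∨ m.2.2 = 2 * l)

instance (l : ℤ) (c : ℤ × ℤ) (g : Fr) : Decidable (intoOK l c g) := by
  unfold intoOK; infer_instance

lemma lin_bound (a b c l x y : ℤ) (h : (pm a ∧ b = 0) ∨ (a = 0 ∧ pm b) ∨ (a = 0 ∧ b = 0)) (s t : ℝ)
    (s1 : (x : ℝ) ≤ s) (s2 : s ≤ x + 1) (t1 : (y : ℝ) ≤ t) (t2 : t ≤ y + 1)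
    (p1 : 0 ≤ a * (2 * x) + b * (2 * y) + 2 * c) (p2 : a * (2 * x) + b * (2 * y) + 2 * c ≤ 2 * l)
    (q1 : 0 ≤ a * (2 * x + 2) + b * (2 * y + 2) + 2 * c)
    (q2 : a * (2 * x + 2) + b * (2 * y + 2) + 2 * c ≤ 2 * l) :
    0 ≤ (a : ℝ) * s + b * t + c ∧ (a : ℝ) * s + b * t + c ≤ l := by
  have p1' : (0 : ℝ) ≤ a * (2 * x) + b * (2 * y) + 2 * c := by exact_mod_cast p1
  have p2' : (a : ℝ) * (2 * x) + b * (2 * y) + 2 * c ≤ 2 * l := by exact_mod_cast p2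
  have q1' : (0 : ℝ) ≤ a * (2 * x + 2) + b * (2 * y + 2) + 2 * c := by exact_mod_cast q1
  have q2' : (a : ℝ) * (2 * x + 2) + b * (2 * y + 2) + 2 * c ≤ 2 * l := by exact_mod_cast q2
  rcases h with ⟨h | h, h'⟩ | ⟨h', h | h⟩ | ⟨h, h'⟩ <;> subst h <;> subst h' <;> push_cast at * <;>
    constructor <;> linarith

lemma lin_face (a b c v x y : ℤ) (h : (pm a ∧ b = 0) ∨ (a = 0 ∧ pm b) ∨ (a = 0 ∧ b = 0)) (s t : ℝ)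
    (m : a * (2 * x + 1) + b * (2 * y + 1) + 2 * c = 2 * v) : (a : ℝ) * s + b * t + c = v := by
  rcases h with ⟨h | h, h'⟩ | ⟨h', h | h⟩ | ⟨h, h'⟩ <;> subst h <;> subst h'
  · omega
  · omega
  · omega
  · omega
  · have : c = v := by omega
    simp [this]

lemma app_into (l : ℤ) (c : ℤ × ℤ) (g : Fr) (hg : g.ok) (h : intoOK l c g) (x : Plane)
    (hx : x ∈ unitSquare c) : g.app x ∈ cubeSurface (l : ℝ) := by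
  obtain ⟨x1, x2, x3, x4⟩ := hx
  obtain ⟨⟨p1, p2, p3, p4, p5, p6⟩, ⟨q1, q2, q3, q4, q5, q6⟩, hm⟩ := h
  simp only [Fr.dbl] at *
  obtain ⟨k0, k1, k2⟩ := hg.coords
  constructor
  · intro i
    fin_cases i
    · exact lin_bound _ _ _ l _ _ k0 _ _ x1 x2 x3 x4 p1 p2 q1 q2
    · exact lin_bound _ _ _ l _ _ k1 _ _ x1 x2 x3 x4 p3 p4 q3 q4
    · exact lin_bound _ _ _ l _ _ k2 _ _ x1 x2 x3 x4 p5 p6 q5 q6
  · rcases hm with m | m | m | m | m | m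
    · exact ⟨0, Or.inl (by simpa [Fr.app] using lin_face _ _ _ 0 _ _ k0 (x 0) (x 1) m)⟩
    · exact ⟨0, Or.inr (lin_face _ _ _ l _ _ k0 (x 0) (x 1) m)⟩
    · exact ⟨1, Or.inl (by simpa [Fr.app] using lin_face _ _ _ 0 _ _ k1 (x 0) (x 1) m)⟩
    · exact ⟨1, Or.inr (lin_face _ _ _ l _ _ k1 (x 0) (x 1) m)⟩
    · exact ⟨2, Or.inl (by simpa [Fr.app] using lin_face _ _ _ 0 _ _ k2 (x 0) (x 1) m)⟩
    · exact ⟨2, Or.inr (lin_face _ _ _ l _ _ k2 (x 0) (x 1) m)⟩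

def near (w : ℤ) (z : ℝ) : Prop := (w : ℝ) - 1 ≤ 2 * z ∧ 2 * z ≤ w + 1 ∧ (w % 2 = 0 → 2 * z = w)

lemma app_onto (c : ℤ × ℤ) (g : Fr) (hg : g.ok) (z : Space)
    (h0 : near (g.dbl (2 * c.1 + 1, 2 * c.2 + 1)).1 (z 0))
    (h1 : near (g.dbl (2 * c.1 + 1, 2 * c.2 + 1)).2.1 (z 1))
    (h2 : near (g.dbl (2 * c.1 + 1, 2 * c.2 + 1)).2.2 (z 2)) :
    ∃ x ∈ unitSquare c, g.app x = z := by
  refine ⟨!₂[g.a0 * (z 0 - g.c0) + g.a1 * (z 1 - g.c1) + g.a2 * (z 2 - g.c2),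
    g.b0 * (z 0 - g.c0) + g.b1 * (z 1 - g.c1) + g.b2 * (z 2 - g.c2)], ?_, ?_⟩
  · simp only [unitSquare, Set.mem_ofPred_eq]
    simp only [Matrix.cons_val_zero, Matrix.cons_val_one]
    simp only [near, Fr.dbl] at h0 h1 h2
    obtain ⟨a1, a2, _⟩ := h0
    obtain ⟨b1, b2, _⟩ := h1
    obtain ⟨d1, d2, _⟩ := h2
    rcases hg with ⟨h1 | h1, h2, h3, h4 | h4, h5, h6⟩ | ⟨h1 | h1, h2, h3, h4, h5, h6 | h6⟩ |
      ⟨h1, h2 | h2, h3 | h3, h4, h5, h6⟩ | ⟨h1, h2, h3 | h3, h4, h5, h6 | h6⟩ |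
      ⟨h1, h2 | h2, h3, h4, h5 | h5, h6⟩ | ⟨h1, h2, h3, h4 | h4, h5 | h5, h6⟩ <;>
    simp only [h1, h2, h3, h4, h5, h6] at * <;> push_cast at * <;>
    refine ⟨?_, ?_, ?_, ?_⟩ <;> linarith
  · simp only [near, Fr.dbl] at h0 h1 h2
    obtain ⟨_, _, a3⟩ := h0
    obtain ⟨_, _, b3⟩ := h1
    obtain ⟨_, _, d3⟩ := h2
    have fin : ∀ (v : ℤ) (r : ℝ), ((0 * (2 * c.1 + 1) + 0 * (2 * c.2 + 1) + 2 * v) % 2 = 0 →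
        2 * r = ((0 * (2 * c.1 + 1) + 0 * (2 * c.2 + 1) + 2 * v : ℤ) : ℝ)) → r = v := by
      intro v r h
      have := h (by omega)
      push_cast at this
      linarith
    rcases hg with ⟨h1 | h1, h2, h3, h4 | h4, h5, h6⟩ | ⟨h1 | h1, h2, h3, h4, h5, h6 | h6⟩ |
      ⟨h1, h2 | h2, h3 | h3, h4, h5, h6⟩ | ⟨h1, h2, h3 | h3, h4, h5, h6 | h6⟩ |
      ⟨h1, h2 | h2, h3, h4, h5 | h5, h6⟩ | ⟨h1, h2, h3, h4 | h4, h5 | h5, h6⟩ <;>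
    rw [h1, h2] at a3 <;> rw [h3, h4] at b3 <;> rw [h5, h6] at d3 <;>
    first
      | (have e := fin _ _ d3; ext i; fin_cases i <;> simp [Fr.app, h1, h2, h3, h4, h5, h6, e])
      | (have e := fin _ _ b3; ext i; fin_cases i <;> simp [Fr.app, h1, h2, h3, h4, h5, h6, e])
      | (have e := fin _ _ a3; ext i; fin_cases i <;> simp [Fr.app, h1, h2, h3, h4, h5, h6, e])

lemma near_exists (l : ℕ) (hl : 0 < l) (t : ℝ) (h1 : 0 ≤ t) (h2 : t ≤ l) :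
    ∃ m : ℕ, m < l ∧ near (2 * m + 1) t := by
  rcases eq_or_lt_of_le h2 with h | h
  · refine ⟨l - 1, by omega, ?_, ?_, by omega⟩
    · rw [h]; push_cast [Nat.cast_sub hl]; linarith
    · rw [h]; push_cast [Nat.cast_sub hl]; linarith
  · refine ⟨⌊t⌋₊, (Nat.floor_lt h1).2 h, ?_, ?_, by omega⟩
    · push_cast; linarith [Nat.floor_le h1]
    · push_cast; linarith [Nat.lt_floor_add_one t]

lemma near_even (v : ℤ) (t : ℝ) (h : t = v) : near (2 * v) t := by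
  subst h
  refine ⟨by push_cast; linarith, by push_cast; linarith, fun _ => by push_cast; rfl⟩

/-- doubled centres of the unit squares of the surface -/
def centres (l : ℕ) : List (ℤ × ℤ × ℤ) :=
  (List.range l).flatMap fun (m : ℕ) => (List.range l).flatMap fun (n : ℕ) =>
    [(0, 2 * (m : ℤ) + 1, 2 * (n : ℤ) + 1), (2 * (l : ℤ), 2 * (m : ℤ) + 1, 2 * (n : ℤ) + 1),
     (2 * (m : ℤ) + 1, 0, 2 * (n : ℤ) + 1), (2 * (m : ℤ) + 1, 2 * (l : ℤ), 2 * (n : ℤ) + 1),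
     (2 * (m : ℤ) + 1, 2 * (n : ℤ) + 1, 0), (2 * (m : ℤ) + 1, 2 * (n : ℤ) + 1, 2 * (l : ℤ))]

lemma centre_exists (l : ℕ) (hl : 0 < l) (z : Space) (hz : z ∈ cubeSurface (l : ℝ)) :
    ∃ w ∈ centres l, near w.1 (z 0) ∧ near w.2.1 (z 1) ∧ near w.2.2 (z 2) := by
  obtain ⟨hb, i, hi⟩ := hz
  obtain ⟨m0, a0, n0⟩ := near_exists l hl (z 0) (hb 0).1 (hb 0).2
  obtain ⟨m1, a1, n1⟩ := near_exists l hl (z 1) (hb 1).1 (hb 1).2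
  obtain ⟨m2, a2, n2⟩ := near_exists l hl (z 2) (hb 2).1 (hb 2).2
  simp only [centres, List.mem_flatMap, List.mem_range]
  fin_cases i <;> rcases hi with hi | hi
  · exact ⟨(0, _, _), ⟨m1, a1, m2, a2, by simp⟩, near_even 0 _ (by simpa using hi), n1, n2⟩
  · exact ⟨(2 * (l : ℤ), _, _), ⟨m1, a1, m2, a2, by simp⟩, near_even l _ (by simpa using hi), n1, n2⟩
  · exact ⟨(_, 0, _), ⟨m0, a0, m2, a2, by simp⟩, n0, near_even 0 _ (by simpa using hi), n2⟩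
  · exact ⟨(_, 2 * (l : ℤ), _), ⟨m0, a0, m2, a2, by simp⟩, n0, near_even l _ (by simpa using hi), n2⟩
  · exact ⟨(_, _, 0), ⟨m0, a0, m1, a1, by simp⟩, n0, n1, near_even 0 _ (by simpa using hi)⟩
  · exact ⟨(_, _, 2 * (l : ℤ)), ⟨m0, a0, m1, a1, by simp⟩, n0, n1, near_even l _ (by simpa using hi)⟩

end Pool.Agent.Lib.MP_ea7ca7_co
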