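import Pool.Agent.Lib.MP_ea7ca7_co.Net

namespace Pool.Agent.Lib.MP_ea7ca7_co

def sh0 : Shape := ⟨1, 4, 3,
  [((3,1),⟨0,0,0,0,1,-1,1,0,-3⟩),
   ((1,0),⟨0,1,0,0,0,0,-1,0,2⟩),
   ((1,2),⟨0,-1,3,0,0,1,-1,0,2⟩),
   ((2,1),⟨-1,0,3,0,1,-1,0,0,0⟩),
   ((1,1),⟨0,0,1,0,1,-1,-1,0,2⟩),
   ((0,1),⟨1,0,0,0,1,-1,0,0,1⟩)],
  [(4,3),(3,2),(2,2),(3,3),(4,2),(2,3),(4,1),(1,3),(4,0),(0,3),(3,0),(4,-1),(-1,3),(0,2),(2,0),(3,-1),(-1,2),(2,-1),(-1,1),(0,0),(1,-1),(-1,0),(0,-1),(-1,-1)]⟩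

lemma sh0_ok : sh0.ok := by decide +kernel

def sh1 : Shape := ⟨1, 3, 4,
  [((2,3),⟨0,0,0,-1,0,3,0,1,-3⟩),
   ((2,2),⟨0,-1,3,-1,0,3,0,0,0⟩),
   ((1,0),⟨0,1,0,0,0,0,-1,0,2⟩),
   ((1,2),⟨0,-1,3,0,0,1,-1,0,2⟩),
   ((1,1),⟨0,0,1,0,1,-1,-1,0,2⟩),
   ((0,1),⟨1,0,0,0,1,-1,0,0,1⟩)],
  [(3,4),(2,4),(3,3),(1,4),(3,2),(0,4),(1,3),(3,1),(-1,4),(0,3),(2,1),(3,0),(-1,3),(0,2),(2,0),(3,-1),(-1,2),(2,-1),(-1,1),(0,0),(1,-1),(-1,0),(0,-1),(-1,-1)]⟩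

lemma sh1_ok : sh1.ok := by decide +kernel

def sh2 : Shape := ⟨1, 3, 4,
  [((2,0),⟨0,0,0,1,0,-2,0,-1,1⟩),
   ((2,1),⟨0,1,-1,1,0,-2,0,0,0⟩),
   ((1,1),⟨0,1,-1,0,0,0,-1,0,2⟩),
   ((0,3),⟨1,0,0,0,0,1,0,-1,4⟩),
   ((1,2),⟨0,0,1,0,1,-2,-1,0,2⟩),
   ((0,2),⟨1,0,0,0,1,-2,0,0,1⟩)],
  [(3,4),(2,3),(1,3),(2,4),(3,3),(2,2),(1,4),(3,2),(0,4),(3,1),(-1,4),(3,0),(-1,3),(3,-1),(-1,2),(0,1),(1,0),(2,-1),(-1,1),(0,0),(1,-1),(-1,0),(0,-1),(-1,-1)]⟩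

lemma sh2_ok : sh2.ok := by decide +kernel

def sh3 : Shape := ⟨1, 4, 3,
  [((3,0),⟨0,0,0,1,0,-3,0,-1,1⟩),
   ((2,0),⟨-1,0,3,0,0,0,0,-1,1⟩),
   ((2,1),⟨-1,0,3,0,1,-1,0,0,0⟩),
   ((0,2),⟨1,0,0,0,0,1,0,-1,3⟩),
   ((1,1),⟨0,0,1,0,1,-1,-1,0,2⟩),
   ((0,1),⟨1,0,0,0,1,-1,0,0,1⟩)],
  [(4,3),(3,2),(2,2),(3,3),(4,2),(3,1),(1,2),(2,3),(4,1),(1,3),(4,0),(0,3),(4,-1),(-1,3),(3,-1),(-1,2),(1,0),(2,-1),(-1,1),(0,0),(1,-1),(-1,0),(0,-1),(-1,-1)]⟩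

lemma sh3_ok : sh3.ok := by decide +kernel

def sh4 : Shape := ⟨1, 5, 2,
  [((4,1),⟨1,0,-4,0,0,0,0,1,-1⟩),
   ((3,1),⟨0,0,0,-1,0,4,0,1,-1⟩),
   ((2,1),⟨-1,0,3,0,0,1,0,1,-1⟩),
   ((2,0),⟨-1,0,3,0,1,0,0,0,0⟩),
   ((1,0),⟨0,0,1,0,1,0,-1,0,2⟩),
   ((0,0),⟨1,0,0,0,1,0,0,0,1⟩)],
  [(5,2),(4,2),(5,1),(3,2),(5,0),(2,2),(4,0),(5,-1),(1,2),(3,0),(4,-1),(0,2),(1,1),(3,-1),(-1,2),(0,1),(2,-1),(-1,1),(1,-1),(-1,0),(0,-1),(-1,-1)]⟩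

lemma sh4_ok : sh4.ok := by decide +kernel

def sh5 : Shape := ⟨1, 2, 5,
  [((1,4),⟨0,0,0,0,1,-4,1,0,-1⟩),
   ((1,3),⟨0,-1,4,0,0,0,1,0,-1⟩),
   ((1,2),⟨0,0,1,0,-1,3,1,0,-1⟩),
   ((0,2),⟨1,0,0,0,-1,3,0,0,0⟩),
   ((0,1),⟨1,0,0,0,0,1,0,-1,2⟩),
   ((0,0),⟨1,0,0,0,1,0,0,0,1⟩)],
  [(2,5),(1,5),(2,4),(0,5),(2,3),(-1,5),(0,4),(2,2),(-1,4),(0,3),(2,1),(-1,3),(1,1),(2,0),(-1,2),(1,0),(2,-1),(-1,1),(1,-1),(-1,0),(0,-1),(-1,-1)]⟩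

lemma sh5_ok : sh5.ok := by decide +kernel

def sh6 : Shape := ⟨1, 4, 3,
  [((3,0),⟨0,0,0,1,0,-3,0,-1,1⟩),
   ((2,0),⟨-1,0,3,0,0,0,0,-1,1⟩),
   ((1,2),⟨0,-1,3,0,0,1,-1,0,2⟩),
   ((2,1),⟨-1,0,3,0,1,-1,0,0,0⟩),
   ((1,1),⟨0,0,1,0,1,-1,-1,0,2⟩),
   ((0,1),⟨1,0,0,0,1,-1,0,0,1⟩)],
  [(4,3),(3,2),(2,2),(3,3),(4,2),(3,1),(2,3),(4,1),(1,3),(4,0),(0,3),(4,-1),(-1,3),(0,2),(3,-1),(-1,2),(1,0),(2,-1),(-1,1),(0,0),(1,-1),(-1,0),(0,-1),(-1,-1)]⟩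

lemma sh6_ok : sh6.ok := by decide +kernel

def sh7 : Shape := ⟨1, 4, 3,
  [((3,1),⟨0,-1,2,0,0,0,1,0,-3⟩),
   ((1,2),⟨0,0,0,0,-1,3,-1,0,2⟩),
   ((2,1),⟨0,-1,2,-1,0,3,0,0,0⟩),
   ((1,1),⟨0,-1,2,0,0,1,-1,0,2⟩),
   ((1,0),⟨0,0,1,0,1,0,-1,0,2⟩),
   ((0,0),⟨1,0,0,0,1,0,0,0,1⟩)],
  [(4,3),(3,2),(2,2),(3,3),(4,2),(2,3),(4,1),(1,3),(4,0),(0,3),(3,0),(4,-1),(-1,3),(0,2),(2,0),(3,-1),(-1,2),(0,1),(2,-1),(-1,1),(1,-1),(-1,0),(0,-1),(-1,-1)]⟩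

lemma sh7_ok : sh7.ok := by decide +kernel

def sh8 : Shape := ⟨1, 4, 3,
  [((3,0),⟨0,0,0,0,1,0,1,0,-3⟩),
   ((3,1),⟨0,1,-1,0,0,1,1,0,-3⟩),
   ((2,1),⟨0,1,-1,1,0,-2,0,0,0⟩),
   ((1,1),⟨0,1,-1,0,0,0,-1,0,2⟩),
   ((1,2),⟨0,0,1,0,1,-2,-1,0,2⟩),
   ((0,2),⟨1,0,0,0,1,-2,0,0,1⟩)],
  [(4,3),(3,2),(2,2),(3,3),(4,2),(2,3),(4,1),(1,3),(4,0),(0,3),(4,-1),(-1,3),(2,0),(3,-1),(-1,2),(0,1),(1,0),(2,-1),(-1,1),(0,0),(1,-1),(-1,0),(0,-1),(-1,-1)]⟩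

lemma sh8_ok : sh8.ok := by decide +kernel

def sh9 : Shape := ⟨1, 4, 3,
  [((3,0),⟨0,0,0,1,0,-3,0,-1,1⟩),
   ((2,0),⟨-1,0,3,0,0,0,0,-1,1⟩),
   ((2,2),⟨-1,0,3,0,0,1,0,1,-2⟩),
   ((2,1),⟨-1,0,3,0,1,-1,0,0,0⟩),
   ((1,1),⟨0,0,1,0,1,-1,-1,0,2⟩),
   ((0,1),⟨1,0,0,0,1,-1,0,0,1⟩)],
  [(4,3),(3,2),(3,3),(4,2),(3,1),(2,3),(4,1),(1,3),(4,0),(0,3),(1,2),(4,-1),(-1,3),(0,2),(3,-1),(-1,2),(1,0),(2,-1),(-1,1),(0,0),(1,-1),(-1,0),(0,-1),(-1,-1)]⟩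

lemma sh9_ok : sh9.ok := by decide +kernel

def sh10 : Shape := ⟨2, 8, 7,
  [((1,0),⟨0,0,2,-1,0,2,0,-1,2⟩),
   ((7,0),⟨1,0,-6,0,0,2,0,-1,2⟩),
   ((2,0),⟨-1,0,4,0,0,0,0,-1,2⟩),
   ((6,0),⟨1,0,-6,0,0,2,0,-1,2⟩),
   ((3,0),⟨-1,0,4,0,0,0,0,-1,2⟩),
   ((5,0),⟨0,0,0,1,0,-4,0,-1,2⟩),
   ((4,0),⟨0,0,0,1,0,-4,0,-1,2⟩),
   ((3,1),⟨-1,0,4,0,0,0,0,-1,2⟩),
   ((5,1),⟨0,0,0,1,0,-4,0,-1,2⟩),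
   ((4,1),⟨0,0,0,1,0,-4,0,-1,2⟩),
   ((5,2),⟨0,1,-2,1,0,-4,0,0,0⟩),
   ((4,2),⟨0,1,-2,1,0,-4,0,0,0⟩),
   ((4,3),⟨0,1,-2,1,0,-4,0,0,0⟩),
   ((5,6),⟨-1,0,6,0,0,2,0,1,-6⟩),
   ((3,3),⟨0,1,-2,0,0,0,-1,0,4⟩),
   ((4,6),⟨-1,0,6,0,0,2,0,1,-6⟩),
   ((3,4),⟨0,0,2,0,1,-4,-1,0,4⟩),
   ((4,5),⟨-1,0,6,0,1,-4,0,0,0⟩),
   ((3,5),⟨0,0,2,0,1,-4,-1,0,4⟩),
   ((2,5),⟨0,0,2,0,1,-4,-1,0,4⟩),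
   ((1,5),⟨1,0,0,0,1,-4,0,0,2⟩),
   ((0,5),⟨1,0,0,0,1,-4,0,0,2⟩),
   ((1,4),⟨1,0,0,0,1,-4,0,0,2⟩),
   ((0,4),⟨1,0,0,0,1,-4,0,0,2⟩)],
  [(5,5),(4,4),(8,7),(7,6),(6,5),(5,4),(6,6),(7,7),(8,6),(7,5),(6,4),(5,3),(6,7),(8,5),(7,4),(6,3),(5,7),(8,4),(7,3),(6,2),(4,7),(8,3),(7,2),(6,1),(3,7),(8,2),(7,1),(2,7),(3,6),(8,1),(1,7),(2,6),(8,0),(0,7),(1,6),(8,-1),(-1,7),(0,6),(2,4),(7,-1),(-1,6),(2,3),(3,2),(6,-1),(-1,5),(1,3),(2,2),(5,-1),(-1,4),(0,3),(1,2),(2,1),(4,-1),(-1,3),(0,2),(1,1),(3,-1),(-1,2),(0,1),(2,-1),(-1,1),(0,0),(1,-1),(-1,0),(0,-1),(-1,-1)]⟩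

lemma sh10_ok : sh10.ok := by decide +kernel

def sh11 : Shape := ⟨1, 4, 3,
  [((2,0),⟨0,0,0,1,0,-2,0,-1,1⟩),
   ((3,1),⟨0,1,-1,0,0,1,1,0,-3⟩),
   ((2,1),⟨0,1,-1,1,0,-2,0,0,0⟩),
   ((1,1),⟨0,1,-1,0,0,0,-1,0,2⟩),
   ((1,2),⟨0,0,1,0,1,-2,-1,0,2⟩),
   ((0,2),⟨1,0,0,0,1,-2,0,0,1⟩)],
  [(4,3),(3,2),(2,2),(3,3),(4,2),(2,3),(4,1),(1,3),(4,0),(0,3),(3,0),(4,-1),(-1,3),(3,-1),(-1,2),(0,1),(1,0),(2,-1),(-1,1),(0,0),(1,-1),(-1,0),(0,-1),(-1,-1)]⟩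

lemma sh11_ok : sh11.ok := by decide +kernel

def sh12 : Shape := ⟨1, 4, 3,
  [((3,2),⟨1,0,-3,0,0,0,0,1,-2⟩),
   ((2,2),⟨0,0,0,-1,0,3,0,1,-2⟩),
   ((2,1),⟨0,-1,2,-1,0,3,0,0,0⟩),
   ((1,1),⟨0,-1,2,0,0,1,-1,0,2⟩),
   ((1,0),⟨0,0,1,0,1,0,-1,0,2⟩),
   ((0,0),⟨1,0,0,0,1,0,0,0,1⟩)],
  [(4,3),(3,3),(4,2),(2,3),(4,1),(1,3),(3,1),(4,0),(0,3),(1,2),(3,0),(4,-1),(-1,3),(0,2),(2,0),(3,-1),(-1,2),(0,1),(2,-1),(-1,1),(1,-1),(-1,0),(0,-1),(-1,-1)]⟩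

lemma sh12_ok : sh12.ok := by decide +kernel

def sh13 : Shape := ⟨1, 3, 4,
  [((2,3),⟨1,0,-2,0,0,0,0,1,-3⟩),
   ((2,2),⟨1,0,-2,0,-1,3,0,0,0⟩),
   ((1,2),⟨0,0,0,0,-1,3,-1,0,2⟩),
   ((1,1),⟨0,-1,2,0,0,1,-1,0,2⟩),
   ((1,0),⟨0,0,1,0,1,0,-1,0,2⟩),
   ((0,0),⟨1,0,0,0,1,0,0,0,1⟩)],
  [(3,4),(2,4),(3,3),(1,4),(3,2),(0,4),(1,3),(3,1),(-1,4),(0,3),(2,1),(3,0),(-1,3),(0,2),(2,0),(3,-1),(-1,2),(0,1),(2,-1),(-1,1),(1,-1),(-1,0),(0,-1),(-1,-1)]⟩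

lemma sh13_ok : sh13.ok := by decide +kernel

def sh14 : Shape := ⟨1, 2, 5,
  [((1,0),⟨0,0,0,0,-1,1,-1,0,2⟩),
   ((0,4),⟨1,0,0,0,-1,5,0,0,0⟩),
   ((1,1),⟨0,1,-1,0,0,0,-1,0,2⟩),
   ((0,3),⟨1,0,0,0,0,1,0,-1,4⟩),
   ((1,2),⟨0,0,1,0,1,-2,-1,0,2⟩),
   ((0,2),⟨1,0,0,0,1,-2,0,0,1⟩)],
  [(2,5),(1,4),(1,5),(2,4),(1,3),(0,5),(2,3),(-1,5),(2,2),(-1,4),(2,1),(-1,3),(2,0),(-1,2),(0,1),(2,-1),(-1,1),(0,0),(1,-1),(-1,0),(0,-1),(-1,-1)]⟩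

lemma sh14_ok : sh14.ok := by decide +kernel

def sh15 : Shape := ⟨1, 5, 2,
  [((4,0),⟨1,0,-4,0,0,1,0,-1,1⟩),
   ((3,0),⟨0,0,0,1,0,-3,0,-1,1⟩),
   ((2,0),⟨-1,0,3,0,0,0,0,-1,1⟩),
   ((2,1),⟨-1,0,3,0,1,-1,0,0,0⟩),
   ((1,1),⟨0,0,1,0,1,-1,-1,0,2⟩),
   ((0,1),⟨1,0,0,0,1,-1,0,0,1⟩)],
  [(5,2),(4,1),(3,1),(4,2),(5,1),(3,2),(5,0),(2,2),(5,-1),(1,2),(4,-1),(0,2),(3,-1),(-1,2),(1,0),(2,-1),(-1,1),(0,0),(1,-1),(-1,0),(0,-1),(-1,-1)]⟩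

lemma sh15_ok : sh15.ok := by decide +kernel

def sh16 : Shape := ⟨1, 3, 4,
  [((1,3),⟨0,0,0,0,-1,4,-1,0,2⟩),
   ((2,0),⟨-1,0,3,0,0,0,0,-1,1⟩),
   ((1,2),⟨0,-1,3,0,0,1,-1,0,2⟩),
   ((2,1),⟨-1,0,3,0,1,-1,0,0,0⟩),
   ((1,1),⟨0,0,1,0,1,-1,-1,0,2⟩),
   ((0,1),⟨1,0,0,0,1,-1,0,0,1⟩)],
  [(3,4),(2,3),(2,4),(3,3),(2,2),(1,4),(3,2),(0,4),(3,1),(-1,4),(0,3),(3,0),(-1,3),(0,2),(3,-1),(-1,2),(1,0),(2,-1),(-1,1),(0,0),(1,-1),(-1,0),(0,-1),(-1,-1)]⟩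

lemma sh16_ok : sh16.ok := by decide +kernel

def sh17 : Shape := ⟨1, 3, 4,
  [((2,3),⟨1,0,-2,0,0,0,0,1,-3⟩),
   ((1,3),⟨0,0,0,-1,0,2,0,1,-3⟩),
   ((1,2),⟨0,-1,3,-1,0,2,0,0,0⟩),
   ((1,1),⟨0,0,1,-1,0,2,0,-1,2⟩),
   ((0,1),⟨1,0,0,0,0,1,0,-1,2⟩),
   ((0,0),⟨1,0,0,0,1,0,0,0,1⟩)],
  [(3,4),(2,4),(3,3),(1,4),(3,2),(0,4),(2,2),(3,1),(-1,4),(0,3),(2,1),(3,0),(-1,3),(0,2),(2,0),(3,-1),(-1,2),(1,0),(2,-1),(-1,1),(1,-1),(-1,0),(0,-1),(-1,-1)]⟩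

lemma sh17_ok : sh17.ok := by decide +kernel

def sh18 : Shape := ⟨1, 3, 4,
  [((1,0),⟨0,0,0,0,-1,1,-1,0,2⟩),
   ((2,3),⟨-1,0,3,0,0,1,0,1,-3⟩),
   ((1,1),⟨0,1,-1,0,0,0,-1,0,2⟩),
   ((2,2),⟨-1,0,3,0,1,-2,0,0,0⟩),
   ((1,2),⟨0,0,1,0,1,-2,-1,0,2⟩),
   ((0,2),⟨1,0,0,0,1,-2,0,0,1⟩)],
  [(3,4),(2,4),(3,3),(1,4),(3,2),(0,4),(1,3),(3,1),(-1,4),(0,3),(2,1),(3,0),(-1,3),(2,0),(3,-1),(-1,2),(0,1),(2,-1),(-1,1),(0,0),(1,-1),(-1,0),(0,-1),(-1,-1)]⟩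

lemma sh18_ok : sh18.ok := by decide +kernel

def sh19 : Shape := ⟨2, 7, 8,
  [((6,1),⟨-1,0,7,0,0,0,0,-1,2⟩),
   ((6,7),⟨-1,0,7,0,-1,8,0,0,2⟩),
   ((6,2),⟨-1,0,7,0,1,-2,0,0,0⟩),
   ((6,6),⟨-1,0,7,0,-1,8,0,0,2⟩),
   ((6,3),⟨-1,0,7,0,1,-2,0,0,0⟩),
   ((6,5),⟨-1,0,7,0,0,2,0,1,-4⟩),
   ((5,3),⟨-1,0,7,0,1,-2,0,0,0⟩),
   ((5,5),⟨-1,0,7,0,0,2,0,1,-4⟩),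
   ((6,4),⟨-1,0,7,0,0,2,0,1,-4⟩),
   ((4,5),⟨0,0,2,1,0,-3,0,1,-4⟩),
   ((5,4),⟨-1,0,7,0,0,2,0,1,-4⟩),
   ((2,0),⟨0,0,0,0,-1,2,-1,0,3⟩),
   ((4,4),⟨0,0,2,1,0,-3,0,1,-4⟩),
   ((1,0),⟨0,0,0,0,-1,2,-1,0,3⟩),
   ((2,1),⟨0,0,0,0,-1,2,-1,0,3⟩),
   ((3,4),⟨0,0,2,1,0,-3,0,1,-4⟩),
   ((1,1),⟨0,0,0,0,-1,2,-1,0,3⟩),
   ((3,3),⟨0,1,-2,1,0,-3,0,0,0⟩),
   ((1,2),⟨0,1,-2,0,0,0,-1,0,3⟩),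
   ((2,3),⟨0,1,-2,0,0,0,-1,0,3⟩),
   ((1,3),⟨0,1,-2,0,0,0,-1,0,3⟩),
   ((0,5),⟨1,0,1,0,1,-4,0,0,2⟩),
   ((1,4),⟨0,0,2,0,1,-4,-1,0,3⟩),
   ((0,4),⟨1,0,1,0,1,-4,0,0,2⟩)],
  [(7,8),(6,8),(7,7),(5,8),(7,6),(4,8),(5,7),(7,5),(3,8),(4,7),(5,6),(7,4),(2,4),(2,8),(3,5),(3,7),(4,6),(7,3),(1,8),(2,5),(2,7),(3,6),(7,2),(0,8),(1,5),(1,7),(2,6),(7,1),(-1,8),(0,7),(1,6),(4,3),(5,2),(7,0),(-1,7),(0,6),(2,2),(4,2),(5,1),(6,0),(7,-1),(-1,6),(3,2),(4,1),(5,0),(6,-1),(-1,5),(3,1),(4,0),(5,-1),(-1,4),(0,3),(3,0),(4,-1),(-1,3),(0,2),(3,-1),(-1,2),(0,1),(2,-1),(-1,1),(0,0),(1,-1),(-1,0),(0,-1),(-1,-1)]⟩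

lemma sh19_ok : sh19.ok := by decide +kernel

def sh20 : Shape := ⟨1, 3, 4,
  [((1,3),⟨0,0,0,-1,0,2,0,1,-3⟩),
   ((2,2),⟨0,-1,3,0,0,0,1,0,-2⟩),
   ((1,2),⟨0,-1,3,-1,0,2,0,0,0⟩),
   ((1,1),⟨0,0,1,-1,0,2,0,-1,2⟩),
   ((0,1),⟨1,0,0,0,0,1,0,-1,2⟩),
   ((0,0),⟨1,0,0,0,1,0,0,0,1⟩)],
  [(3,4),(2,3),(2,4),(3,3),(1,4),(3,2),(0,4),(3,1),(-1,4),(0,3),(2,1),(3,0),(-1,3),(0,2),(2,0),(3,-1),(-1,2),(1,0),(2,-1),(-1,1),(1,-1),(-1,0),(0,-1),(-1,-1)]⟩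

lemma sh20_ok : sh20.ok := by decide +kernel

def sh21 : Shape := ⟨1, 4, 3,
  [((3,2),⟨0,0,0,-1,0,4,0,1,-2⟩),
   ((2,0),⟨-1,0,3,0,0,0,0,-1,1⟩),
   ((2,2),⟨-1,0,3,0,0,1,0,1,-2⟩),
   ((2,1),⟨-1,0,3,0,1,-1,0,0,0⟩),
   ((1,1),⟨0,0,1,0,1,-1,-1,0,2⟩),
   ((0,1),⟨1,0,0,0,1,-1,0,0,1⟩)],
  [(4,3),(3,3),(4,2),(2,3),(4,1),(1,3),(3,1),(4,0),(0,3),(1,2),(3,0),(4,-1),(-1,3),(0,2),(3,-1),(-1,2),(1,0),(2,-1),(-1,1),(0,0),(1,-1),(-1,0),(0,-1),(-1,-1)]⟩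

lemma sh21_ok : sh21.ok := by decide +kernel

def sh22 : Shape := ⟨1, 4, 3,
  [((3,1),⟨0,1,-1,0,0,1,1,0,-3⟩),
   ((1,0),⟨0,0,0,0,-1,1,-1,0,2⟩),
   ((2,1),⟨0,1,-1,1,0,-2,0,0,0⟩),
   ((1,1),⟨0,1,-1,0,0,0,-1,0,2⟩),
   ((1,2),⟨0,0,1,0,1,-2,-1,0,2⟩),
   ((0,2),⟨1,0,0,0,1,-2,0,0,1⟩)],
  [(4,3),(3,2),(2,2),(3,3),(4,2),(2,3),(4,1),(1,3),(4,0),(0,3),(3,0),(4,-1),(-1,3),(2,0),(3,-1),(-1,2),(0,1),(2,-1),(-1,1),(0,0),(1,-1),(-1,0),(0,-1),(-1,-1)]⟩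

lemma sh22_ok : sh22.ok := by decide +kernel

def sh23 : Shape := ⟨2, 8, 7,
  [((7,2),⟨1,0,-6,0,0,2,0,-1,3⟩),
   ((2,0),⟨-1,0,4,0,-1,1,0,0,2⟩),
   ((6,2),⟨1,0,-6,0,0,2,0,-1,3⟩),
   ((7,1),⟨1,0,-6,0,0,2,0,-1,3⟩),
   ((3,0),⟨-1,0,4,0,-1,1,0,0,2⟩),
   ((6,1),⟨1,0,-6,0,0,2,0,-1,3⟩),
   ((3,1),⟨-1,0,4,0,0,0,0,-1,3⟩),
   ((5,1),⟨0,0,0,1,0,-4,0,-1,3⟩),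
   ((4,1),⟨0,0,0,1,0,-4,0,-1,3⟩),
   ((4,2),⟨0,0,0,1,0,-4,0,-1,3⟩),
   ((4,3),⟨0,1,-3,1,0,-4,0,0,0⟩),
   ((3,3),⟨0,1,-3,0,0,0,-1,0,4⟩),
   ((6,6),⟨0,0,0,0,1,-5,1,0,-6⟩),
   ((3,4),⟨0,1,-3,0,0,0,-1,0,4⟩),
   ((4,5),⟨-1,0,6,0,1,-5,0,0,0⟩),
   ((5,6),⟨-1,0,6,0,1,-5,0,0,0⟩),
   ((2,4),⟨0,1,-3,0,0,0,-1,0,4⟩),
   ((3,5),⟨0,0,2,0,1,-5,-1,0,4⟩),
   ((4,6),⟨-1,0,6,0,1,-5,0,0,0⟩),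
   ((2,5),⟨0,0,2,0,1,-5,-1,0,4⟩),
   ((3,6),⟨0,0,2,0,1,-5,-1,0,4⟩),
   ((2,6),⟨0,0,2,0,1,-5,-1,0,4⟩),
   ((1,6),⟨1,0,0,0,1,-5,0,0,2⟩),
   ((0,6),⟨1,0,0,0,1,-5,0,0,2⟩)],
  [(5,5),(4,4),(8,7),(7,6),(6,5),(5,2),(5,4),(7,7),(8,6),(7,5),(6,4),(5,3),(6,7),(8,5),(7,4),(6,3),(5,7),(8,4),(7,3),(4,7),(8,3),(3,7),(8,2),(2,7),(8,1),(1,7),(8,0),(0,7),(7,0),(8,-1),(-1,7),(1,5),(6,0),(7,-1),(-1,6),(0,5),(1,4),(2,3),(3,2),(5,0),(6,-1),(-1,5),(0,4),(1,3),(2,2),(4,0),(5,-1),(-1,4),(0,3),(1,2),(2,1),(4,-1),(-1,3),(0,2),(1,1),(3,-1),(-1,2),(0,1),(1,0),(2,-1),(-1,1),(0,0),(1,-1),(-1,0),(0,-1),(-1,-1)]⟩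

lemma sh23_ok : sh23.ok := by decide +kernel

def sh24 : Shape := ⟨1, 3, 4,
  [((1,0),⟨0,0,0,0,-1,1,-1,0,2⟩),
   ((1,1),⟨0,1,-1,0,0,0,-1,0,2⟩),
   ((2,2),⟨-1,0,3,0,1,-2,0,0,0⟩),
   ((0,3),⟨1,0,0,0,0,1,0,-1,4⟩),
   ((1,2),⟨0,0,1,0,1,-2,-1,0,2⟩),
   ((0,2),⟨1,0,0,0,1,-2,0,0,1⟩)],
  [(3,4),(2,3),(1,3),(2,4),(3,3),(1,4),(3,2),(0,4),(3,1),(-1,4),(2,1),(3,0),(-1,3),(2,0),(3,-1),(-1,2),(0,1),(2,-1),(-1,1),(0,0),(1,-1),(-1,0),(0,-1),(-1,-1)]⟩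

lemma sh24_ok : sh24.ok := by decide +kernel

def sh25 : Shape := ⟨1, 3, 4,
  [((1,3),⟨0,0,0,-1,0,2,0,1,-3⟩),
   ((1,2),⟨0,-1,3,-1,0,2,0,0,0⟩),
   ((2,1),⟨-1,0,3,0,0,0,0,-1,2⟩),
   ((1,1),⟨0,0,1,-1,0,2,0,-1,2⟩),
   ((0,1),⟨1,0,0,0,0,1,0,-1,2⟩),
   ((0,0),⟨1,0,0,0,1,0,0,0,1⟩)],
  [(3,4),(2,3),(2,4),(3,3),(2,2),(1,4),(3,2),(0,4),(3,1),(-1,4),(0,3),(3,0),(-1,3),(0,2),(2,0),(3,-1),(-1,2),(1,0),(2,-1),(-1,1),(1,-1),(-1,0),(0,-1),(-1,-1)]⟩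

lemma sh25_ok : sh25.ok := by decide +kernel

def sh26 : Shape := ⟨2, 7, 8,
  [((4,7),⟨0,0,0,0,1,-6,1,0,-4⟩),
   ((6,2),⟨-1,0,8,0,-1,4,0,0,2⟩),
   ((5,7),⟨0,0,0,0,1,-6,1,0,-4⟩),
   ((4,6),⟨0,0,0,0,1,-6,1,0,-4⟩),
   ((6,3),⟨-1,0,8,0,-1,4,0,0,2⟩),
   ((5,6),⟨0,0,0,0,1,-6,1,0,-4⟩),
   ((5,3),⟨0,0,2,0,-1,4,1,0,-4⟩),
   ((5,5),⟨0,-1,6,0,0,0,1,0,-4⟩),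
   ((5,4),⟨0,-1,6,0,0,0,1,0,-4⟩),
   ((4,4),⟨0,-1,6,0,0,0,1,0,-4⟩),
   ((3,4),⟨0,-1,6,-1,0,4,0,0,0⟩),
   ((0,6),⟨1,0,0,0,0,0,0,1,-6⟩),
   ((3,3),⟨0,0,2,-1,0,4,0,-1,4⟩),
   ((0,5),⟨1,0,0,0,-1,6,0,0,0⟩),
   ((1,4),⟨1,0,0,0,-1,6,0,0,0⟩),
   ((2,3),⟨0,0,2,-1,0,4,0,-1,4⟩),
   ((0,4),⟨1,0,0,0,-1,6,0,0,0⟩),
   ((1,3),⟨1,0,0,0,0,2,0,-1,4⟩),
   ((2,2),⟨0,0,2,-1,0,4,0,-1,4⟩),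
   ((0,3),⟨1,0,0,0,0,2,0,-1,4⟩),
   ((1,2),⟨1,0,0,0,0,2,0,-1,4⟩),
   ((0,2),⟨1,0,0,0,0,2,0,-1,4⟩),
   ((0,1),⟨1,0,0,0,1,0,0,0,2⟩),
   ((0,0),⟨1,0,0,0,1,0,0,0,2⟩)],
  [(7,8),(6,7),(6,8),(7,7),(6,6),(4,5),(5,8),(7,6),(6,5),(2,4),(3,5),(4,8),(7,5),(6,4),(2,5),(3,6),(3,8),(7,4),(1,5),(2,6),(2,8),(3,7),(7,3),(1,6),(1,8),(2,7),(7,2),(0,8),(1,7),(7,1),(-1,8),(0,7),(4,3),(5,2),(6,1),(7,0),(-1,7),(4,2),(5,1),(6,0),(7,-1),(-1,6),(3,2),(4,1),(5,0),(6,-1),(-1,5),(3,1),(4,0),(5,-1),(-1,4),(2,1),(3,0),(4,-1),(-1,3),(1,1),(2,0),(3,-1),(-1,2),(1,0),(2,-1),(-1,1),(1,-1),(-1,0),(0,-1),(-1,-1)]⟩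

lemma sh26_ok : sh26.ok := by decide +kernel

def sh27 : Shape := ⟨1, 3, 4,
  [((1,0),⟨0,-1,1,0,0,1,-1,0,2⟩),
   ((1,1),⟨0,0,0,0,-1,2,-1,0,2⟩),
   ((1,2),⟨0,1,-2,0,0,0,-1,0,2⟩),
   ((2,3),⟨-1,0,3,0,1,-3,0,0,0⟩),
   ((1,3),⟨0,0,1,0,1,-3,-1,0,2⟩),
   ((0,3),⟨1,0,0,0,1,-3,0,0,1⟩)],
  [(3,4),(2,4),(3,3),(1,4),(3,2),(0,4),(2,2),(3,1),(-1,4),(2,1),(3,0),(-1,3),(0,2),(2,0),(3,-1),(-1,2),(0,1),(2,-1),(-1,1),(0,0),(1,-1),(-1,0),(0,-1),(-1,-1)]⟩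

lemma sh27_ok : sh27.ok := by decide +kernel

def sh28 : Shape := ⟨1, 4, 3,
  [((3,2),⟨0,0,0,0,1,-2,1,0,-3⟩),
   ((2,2),⟨-1,0,3,0,1,-2,0,0,0⟩),
   ((2,1),⟨-1,0,3,0,0,0,0,-1,2⟩),
   ((1,1),⟨0,0,1,-1,0,2,0,-1,2⟩),
   ((0,1),⟨1,0,0,0,0,1,0,-1,2⟩),
   ((0,0),⟨1,0,0,0,1,0,0,0,1⟩)],
  [(4,3),(3,3),(4,2),(2,3),(4,1),(1,3),(3,1),(4,0),(0,3),(1,2),(3,0),(4,-1),(-1,3),(0,2),(2,0),(3,-1),(-1,2),(1,0),(2,-1),(-1,1),(1,-1),(-1,0),(0,-1),(-1,-1)]⟩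

lemma sh28_ok : sh28.ok := by decide +kernel

def sh29 : Shape := ⟨1, 4, 3,
  [((3,0),⟨0,-1,1,0,0,0,1,0,-3⟩),
   ((2,2),⟨-1,0,3,0,0,1,0,1,-2⟩),
   ((3,1),⟨0,0,0,0,1,-1,1,0,-3⟩),
   ((2,1),⟨-1,0,3,0,1,-1,0,0,0⟩),
   ((1,1),⟨0,0,1,0,1,-1,-1,0,2⟩),
   ((0,1),⟨1,0,0,0,1,-1,0,0,1⟩)],
  [(4,3),(3,2),(3,3),(4,2),(2,3),(4,1),(1,3),(4,0),(0,3),(1,2),(4,-1),(-1,3),(0,2),(2,0),(3,-1),(-1,2),(1,0),(2,-1),(-1,1),(0,0),(1,-1),(-1,0),(0,-1),(-1,-1)]⟩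

lemma sh29_ok : sh29.ok := by decide +kernel

def sh30 : Shape := ⟨1, 4, 3,
  [((3,2),⟨0,1,-2,0,0,1,1,0,-3⟩),
   ((2,0),⟨-1,0,3,0,0,0,0,-1,1⟩),
   ((3,1),⟨0,0,0,0,1,-1,1,0,-3⟩),
   ((2,1),⟨-1,0,3,0,1,-1,0,0,0⟩),
   ((1,1),⟨0,0,1,0,1,-1,-1,0,2⟩),
   ((0,1),⟨1,0,0,0,1,-1,0,0,1⟩)],
  [(4,3),(3,3),(4,2),(2,3),(4,1),(1,3),(2,2),(4,0),(0,3),(1,2),(3,0),(4,-1),(-1,3),(0,2),(3,-1),(-1,2),(1,0),(2,-1),(-1,1),(0,0),(1,-1),(-1,0),(0,-1),(-1,-1)]⟩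

lemma sh30_ok : sh30.ok := by decide +kernel

def sh31 : Shape := ⟨1, 3, 4,
  [((2,0),⟨1,0,-2,0,0,1,0,-1,1⟩),
   ((2,1),⟨1,0,-2,0,-1,2,0,0,0⟩),
   ((1,1),⟨0,0,0,0,-1,2,-1,0,2⟩),
   ((1,2),⟨0,1,-2,0,0,0,-1,0,2⟩),
   ((1,3),⟨0,0,1,0,1,-3,-1,0,2⟩),
   ((0,3),⟨1,0,0,0,1,-3,0,0,1⟩)],
  [(3,4),(2,3),(2,4),(3,3),(2,2),(1,4),(3,2),(0,4),(3,1),(-1,4),(3,0),(-1,3),(0,2),(3,-1),(-1,2),(0,1),(1,0),(2,-1),(-1,1),(0,0),(1,-1),(-1,0),(0,-1),(-1,-1)]⟩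

lemma sh31_ok : sh31.ok := by decide +kernel

def sh32 : Shape := ⟨1, 4, 3,
  [((2,0),⟨-1,0,3,0,0,0,0,-1,1⟩),
   ((2,2),⟨-1,0,3,0,0,1,0,1,-2⟩),
   ((3,1),⟨0,0,0,0,1,-1,1,0,-3⟩),
   ((2,1),⟨-1,0,3,0,1,-1,0,0,0⟩),
   ((1,1),⟨0,0,1,0,1,-1,-1,0,2⟩),
   ((0,1),⟨1,0,0,0,1,-1,0,0,1⟩)],
  [(4,3),(3,2),(3,3),(4,2),(2,3),(4,1),(1,3),(4,0),(0,3),(1,2),(3,0),(4,-1),(-1,3),(0,2),(3,-1),(-1,2),(1,0),(2,-1),(-1,1),(0,0),(1,-1),(-1,0),(0,-1),(-1,-1)]⟩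

lemma sh32_ok : sh32.ok := by decide +kernel

def sh33 : Shape := ⟨1, 3, 4,
  [((2,0),⟨1,0,-2,0,-1,1,0,0,0⟩),
   ((1,0),⟨0,0,0,0,-1,1,-1,0,2⟩),
   ((1,1),⟨0,1,-1,0,0,0,-1,0,2⟩),
   ((0,3),⟨1,0,0,0,0,1,0,-1,4⟩),
   ((1,2),⟨0,0,1,0,1,-2,-1,0,2⟩),
   ((0,2),⟨1,0,0,0,1,-2,0,0,1⟩)],
  [(3,4),(2,3),(1,3),(2,4),(3,3),(2,2),(1,4),(3,2),(2,1),(0,4),(3,1),(-1,4),(3,0),(-1,3),(3,-1),(-1,2),(0,1),(2,-1),(-1,1),(0,0),(1,-1),(-1,0),(0,-1),(-1,-1)]⟩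

lemma sh33_ok : sh33.ok := by decide +kernel

def sh34 : Shape := ⟨1, 4, 3,
  [((3,2),⟨0,1,-2,1,0,-3,0,0,0⟩),
   ((3,1),⟨0,0,0,1,0,-3,0,-1,2⟩),
   ((2,1),⟨-1,0,3,0,0,0,0,-1,2⟩),
   ((1,1),⟨0,0,1,-1,0,2,0,-1,2⟩),
   ((0,1),⟨1,0,0,0,0,1,0,-1,2⟩),
   ((0,0),⟨1,0,0,0,1,0,0,0,1⟩)],
  [(4,3),(3,3),(4,2),(2,3),(4,1),(1,3),(2,2),(4,0),(0,3),(1,2),(3,0),(4,-1),(-1,3),(0,2),(2,0),(3,-1),(-1,2),(1,0),(2,-1),(-1,1),(1,-1),(-1,0),(0,-1),(-1,-1)]⟩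

lemma sh34_ok : sh34.ok := by decide +kernel

def sh35 : Shape := ⟨1, 4, 3,
  [((3,1),⟨0,0,0,1,0,-3,0,-1,2⟩),
   ((1,2),⟨0,-1,3,-1,0,2,0,0,0⟩),
   ((2,1),⟨-1,0,3,0,0,0,0,-1,2⟩),
   ((1,1),⟨0,0,1,-1,0,2,0,-1,2⟩),
   ((0,1),⟨1,0,0,0,0,1,0,-1,2⟩),
   ((0,0),⟨1,0,0,0,1,0,0,0,1⟩)],
  [(4,3),(3,2),(2,2),(3,3),(4,2),(2,3),(4,1),(1,3),(4,0),(0,3),(3,0),(4,-1),(-1,3),(0,2),(2,0),(3,-1),(-1,2),(1,0),(2,-1),(-1,1),(1,-1),(-1,0),(0,-1),(-1,-1)]⟩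

lemma sh35_ok : sh35.ok := by decide +kernel

def sh36 : Shape := ⟨1, 3, 4,
  [((1,0),⟨0,0,0,0,-1,1,-1,0,2⟩),
   ((2,1),⟨0,1,-1,1,0,-2,0,0,0⟩),
   ((1,1),⟨0,1,-1,0,0,0,-1,0,2⟩),
   ((0,3),⟨1,0,0,0,0,1,0,-1,4⟩),
   ((1,2),⟨0,0,1,0,1,-2,-1,0,2⟩),
   ((0,2),⟨1,0,0,0,1,-2,0,0,1⟩)],
  [(3,4),(2,3),(1,3),(2,4),(3,3),(2,2),(1,4),(3,2),(0,4),(3,1),(-1,4),(3,0),(-1,3),(2,0),(3,-1),(-1,2),(0,1),(2,-1),(-1,1),(0,0),(1,-1),(-1,0),(0,-1),(-1,-1)]⟩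

lemma sh36_ok : sh36.ok := by decide +kernel

def sh37 : Shape := ⟨1, 3, 4,
  [((1,3),⟨0,0,0,0,-1,4,-1,0,2⟩),
   ((1,0),⟨0,1,0,0,0,0,-1,0,2⟩),
   ((1,2),⟨0,-1,3,0,0,1,-1,0,2⟩),
   ((2,1),⟨-1,0,3,0,1,-1,0,0,0⟩),
   ((1,1),⟨0,0,1,0,1,-1,-1,0,2⟩),
   ((0,1),⟨1,0,0,0,1,-1,0,0,1⟩)],
  [(3,4),(2,3),(2,4),(3,3),(2,2),(1,4),(3,2),(0,4),(3,1),(-1,4),(0,3),(3,0),(-1,3),(0,2),(2,0),(3,-1),(-1,2),(2,-1),(-1,1),(0,0),(1,-1),(-1,0),(0,-1),(-1,-1)]⟩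

lemma sh37_ok : sh37.ok := by decide +kernel

def sh38 : Shape := ⟨1, 3, 4,
  [((2,3),⟨1,0,-2,0,-1,4,0,0,0⟩),
   ((1,3),⟨0,0,0,0,-1,4,-1,0,2⟩),
   ((1,0),⟨0,1,0,0,0,0,-1,0,2⟩),
   ((1,2),⟨0,-1,3,0,0,1,-1,0,2⟩),
   ((1,1),⟨0,0,1,0,1,-1,-1,0,2⟩),
   ((0,1),⟨1,0,0,0,1,-1,0,0,1⟩)],
  [(3,4),(2,4),(3,3),(1,4),(3,2),(0,4),(2,2),(3,1),(-1,4),(0,3),(2,1),(3,0),(-1,3),(0,2),(2,0),(3,-1),(-1,2),(2,-1),(-1,1),(0,0),(1,-1),(-1,0),(0,-1),(-1,-1)]⟩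

lemma sh38_ok : sh38.ok := by decide +kernel

def sh39 : Shape := ⟨1, 4, 3,
  [((3,0),⟨1,0,-3,0,0,1,0,-1,1⟩),
   ((2,0),⟨0,0,0,1,0,-2,0,-1,1⟩),
   ((2,1),⟨0,1,-1,1,0,-2,0,0,0⟩),
   ((1,1),⟨0,1,-1,0,0,0,-1,0,2⟩),
   ((1,2),⟨0,0,1,0,1,-2,-1,0,2⟩),
   ((0,2),⟨1,0,0,0,1,-2,0,0,1⟩)],
  [(4,3),(3,2),(2,2),(3,3),(4,2),(3,1),(2,3),(4,1),(1,3),(4,0),(0,3),(4,-1),(-1,3),(3,-1),(-1,2),(0,1),(1,0),(2,-1),(-1,1),(0,0),(1,-1),(-1,0),(0,-1),(-1,-1)]⟩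

lemma sh39_ok : sh39.ok := by decide +kernel

def sh40 : Shape := ⟨1, 3, 4,
  [((2,3),⟨0,0,0,0,1,-3,1,0,-2⟩),
   ((2,2),⟨0,-1,3,0,0,0,1,0,-2⟩),
   ((1,2),⟨0,-1,3,-1,0,2,0,0,0⟩),
   ((1,1),⟨0,0,1,-1,0,2,0,-1,2⟩),
   ((0,1),⟨1,0,0,0,0,1,0,-1,2⟩),
   ((0,0),⟨1,0,0,0,1,0,0,0,1⟩)],
  [(3,4),(2,4),(3,3),(1,4),(3,2),(0,4),(1,3),(3,1),(-1,4),(0,3),(2,1),(3,0),(-1,3),(0,2),(2,0),(3,-1),(-1,2),(1,0),(2,-1),(-1,1),(1,-1),(-1,0),(0,-1),(-1,-1)]⟩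

lemma sh40_ok : sh40.ok := by decide +kernel

def sh41 : Shape := ⟨1, 4, 3,
  [((3,0),⟨0,-1,1,0,0,0,1,0,-3⟩),
   ((3,1),⟨0,0,0,0,1,-1,1,0,-3⟩),
   ((1,2),⟨0,-1,3,0,0,1,-1,0,2⟩),
   ((2,1),⟨-1,0,3,0,1,-1,0,0,0⟩),
   ((1,1),⟨0,0,1,0,1,-1,-1,0,2⟩),
   ((0,1),⟨1,0,0,0,1,-1,0,0,1⟩)],
  [(4,3),(3,2),(2,2),(3,3),(4,2),(2,3),(4,1),(1,3),(4,0),(0,3),(4,-1),(-1,3),(0,2),(2,0),(3,-1),(-1,2),(1,0),(2,-1),(-1,1),(0,0),(1,-1),(-1,0),(0,-1),(-1,-1)]⟩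

lemma sh41_ok : sh41.ok := by decide +kernel

def sh42 : Shape := ⟨1, 4, 3,
  [((3,2),⟨0,0,0,0,1,-2,1,0,-3⟩),
   ((3,1),⟨0,-1,2,0,0,0,1,0,-3⟩),
   ((2,1),⟨0,-1,2,-1,0,3,0,0,0⟩),
   ((1,1),⟨0,-1,2,0,0,1,-1,0,2⟩),
   ((1,0),⟨0,0,1,0,1,0,-1,0,2⟩),
   ((0,0),⟨1,0,0,0,1,0,0,0,1⟩)],
  [(4,3),(3,3),(4,2),(2,3),(4,1),(1,3),(2,2),(4,0),(0,3),(1,2),(3,0),(4,-1),(-1,3),(0,2),(2,0),(3,-1),(-1,2),(0,1),(2,-1),(-1,1),(1,-1),(-1,0),(0,-1),(-1,-1)]⟩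

lemma sh42_ok : sh42.ok := by decide +kernel

def sh43 : Shape := ⟨1, 3, 4,
  [((1,0),⟨0,0,0,0,-1,1,-1,0,2⟩),
   ((1,1),⟨0,1,-1,0,0,0,-1,0,2⟩),
   ((1,3),⟨0,-1,4,0,0,1,-1,0,2⟩),
   ((2,2),⟨-1,0,3,0,1,-2,0,0,0⟩),
   ((1,2),⟨0,0,1,0,1,-2,-1,0,2⟩),
   ((0,2),⟨1,0,0,0,1,-2,0,0,1⟩)],
  [(3,4),(2,3),(2,4),(3,3),(1,4),(3,2),(0,4),(3,1),(-1,4),(0,3),(2,1),(3,0),(-1,3),(2,0),(3,-1),(-1,2),(0,1),(2,-1),(-1,1),(0,0),(1,-1),(-1,0),(0,-1),(-1,-1)]⟩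

lemma sh43_ok : sh43.ok := by decide +kernel

def sh44 : Shape := ⟨1, 3, 4,
  [((1,3),⟨0,1,-3,0,0,0,-1,0,2⟩),
   ((2,2),⟨1,0,-2,0,-1,3,0,0,0⟩),
   ((1,2),⟨0,0,0,0,-1,3,-1,0,2⟩),
   ((1,1),⟨0,-1,2,0,0,1,-1,0,2⟩),
   ((1,0),⟨0,0,1,0,1,0,-1,0,2⟩),
   ((0,0),⟨1,0,0,0,1,0,0,0,1⟩)],
  [(3,4),(2,3),(2,4),(3,3),(1,4),(3,2),(0,4),(3,1),(-1,4),(0,3),(2,1),(3,0),(-1,3),(0,2),(2,0),(3,-1),(-1,2),(0,1),(2,-1),(-1,1),(1,-1),(-1,0),(0,-1),(-1,-1)]⟩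

lemma sh44_ok : sh44.ok := by decide +kernel

def sh45 : Shape := ⟨1, 4, 3,
  [((3,1),⟨0,0,0,0,1,-1,1,0,-3⟩),
   ((1,0),⟨0,1,0,0,0,0,-1,0,2⟩),
   ((2,1),⟨-1,0,3,0,1,-1,0,0,0⟩),
   ((0,2),⟨1,0,0,0,0,1,0,-1,3⟩),
   ((1,1),⟨0,0,1,0,1,-1,-1,0,2⟩),
   ((0,1),⟨1,0,0,0,1,-1,0,0,1⟩)],
  [(4,3),(3,2),(2,2),(3,3),(4,2),(1,2),(2,3),(4,1),(1,3),(4,0),(0,3),(3,0),(4,-1),(-1,3),(2,0),(3,-1),(-1,2),(2,-1),(-1,1),(0,0),(1,-1),(-1,0),(0,-1),(-1,-1)]⟩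

lemma sh45_ok : sh45.ok := by decide +kernel

def sh46 : Shape := ⟨1, 3, 4,
  [((2,0),⟨0,1,0,1,0,-2,0,0,0⟩),
   ((1,3),⟨0,0,0,0,-1,4,-1,0,2⟩),
   ((1,0),⟨0,1,0,0,0,0,-1,0,2⟩),
   ((1,2),⟨0,-1,3,0,0,1,-1,0,2⟩),
   ((1,1),⟨0,0,1,0,1,-1,-1,0,2⟩),
   ((0,1),⟨1,0,0,0,1,-1,0,0,1⟩)],
  [(3,4),(2,3),(2,4),(3,3),(2,2),(1,4),(3,2),(2,1),(0,4),(3,1),(-1,4),(0,3),(3,0),(-1,3),(0,2),(3,-1),(-1,2),(2,-1),(-1,1),(0,0),(1,-1),(-1,0),(0,-1),(-1,-1)]⟩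

lemma sh46_ok : sh46.ok := by decide +kernel

def sh47 : Shape := ⟨1, 3, 4,
  [((1,0),⟨0,-1,1,0,0,1,-1,0,2⟩),
   ((2,1),⟨1,0,-2,0,-1,2,0,0,0⟩),
   ((1,1),⟨0,0,0,0,-1,2,-1,0,2⟩),
   ((1,2),⟨0,1,-2,0,0,0,-1,0,2⟩),
   ((1,3),⟨0,0,1,0,1,-3,-1,0,2⟩),
   ((0,3),⟨1,0,0,0,1,-3,0,0,1⟩)],
  [(3,4),(2,3),(2,4),(3,3),(2,2),(1,4),(3,2),(0,4),(3,1),(-1,4),(3,0),(-1,3),(0,2),(2,0),(3,-1),(-1,2),(0,1),(2,-1),(-1,1),(0,0),(1,-1),(-1,0),(0,-1),(-1,-1)]⟩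

lemma sh47_ok : sh47.ok := by decide +kernel

def sh48 : Shape := ⟨1, 3, 4,
  [((1,0),⟨0,-1,1,0,0,1,-1,0,2⟩),
   ((1,1),⟨0,0,0,0,-1,2,-1,0,2⟩),
   ((2,2),⟨0,1,-2,1,0,-2,0,0,0⟩),
   ((1,2),⟨0,1,-2,0,0,0,-1,0,2⟩),
   ((1,3),⟨0,0,1,0,1,-3,-1,0,2⟩),
   ((0,3),⟨1,0,0,0,1,-3,0,0,1⟩)],
  [(3,4),(2,3),(2,4),(3,3),(1,4),(3,2),(0,4),(3,1),(-1,4),(2,1),(3,0),(-1,3),(0,2),(2,0),(3,-1),(-1,2),(0,1),(2,-1),(-1,1),(0,0),(1,-1),(-1,0),(0,-1),(-1,-1)]⟩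

lemma sh48_ok : sh48.ok := by decide +kernel

def sh49 : Shape := ⟨1, 4, 3,
  [((3,1),⟨0,0,0,1,0,-3,0,-1,2⟩),
   ((2,1),⟨-1,0,3,0,0,0,0,-1,2⟩),
   ((0,2),⟨1,0,0,0,-1,3,0,0,0⟩),
   ((1,1),⟨0,0,1,-1,0,2,0,-1,2⟩),
   ((0,1),⟨1,0,0,0,0,1,0,-1,2⟩),
   ((0,0),⟨1,0,0,0,1,0,0,0,1⟩)],
  [(4,3),(3,2),(2,2),(3,3),(4,2),(1,2),(2,3),(4,1),(1,3),(4,0),(0,3),(3,0),(4,-1),(-1,3),(2,0),(3,-1),(-1,2),(1,0),(2,-1),(-1,1),(1,-1),(-1,0),(0,-1),(-1,-1)]⟩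

lemma sh49_ok : sh49.ok := by decide +kernel

def sh50 : Shape := ⟨1, 3, 4,
  [((1,3),⟨0,1,-3,0,0,0,-1,0,2⟩),
   ((1,2),⟨0,0,0,0,-1,3,-1,0,2⟩),
   ((2,1),⟨0,-1,2,-1,0,3,0,0,0⟩),
   ((1,1),⟨0,-1,2,0,0,1,-1,0,2⟩),
   ((1,0),⟨0,0,1,0,1,0,-1,0,2⟩),
   ((0,0),⟨1,0,0,0,1,0,0,0,1⟩)],
  [(3,4),(2,3),(2,4),(3,3),(2,2),(1,4),(3,2),(0,4),(3,1),(-1,4),(0,3),(3,0),(-1,3),(0,2),(2,0),(3,-1),(-1,2),(0,1),(2,-1),(-1,1),(1,-1),(-1,0),(0,-1),(-1,-1)]⟩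

lemma sh50_ok : sh50.ok := by decide +kernel

def sh51 : Shape := ⟨1, 3, 4,
  [((2,0),⟨0,0,0,1,0,-2,0,-1,1⟩),
   ((2,1),⟨0,1,-1,1,0,-2,0,0,0⟩),
   ((1,1),⟨0,1,-1,0,0,0,-1,0,2⟩),
   ((1,3),⟨0,-1,4,0,0,1,-1,0,2⟩),
   ((1,2),⟨0,0,1,0,1,-2,-1,0,2⟩),
   ((0,2),⟨1,0,0,0,1,-2,0,0,1⟩)],
  [(3,4),(2,3),(2,4),(3,3),(2,2),(1,4),(3,2),(0,4),(3,1),(-1,4),(0,3),(3,0),(-1,3),(3,-1),(-1,2),(0,1),(1,0),(2,-1),(-1,1),(0,0),(1,-1),(-1,0),(0,-1),(-1,-1)]⟩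

lemma sh51_ok : sh51.ok := by decide +kernel

def shapes : List Shape := [sh0, sh1, sh2, sh3, sh4, sh5, sh6, sh7, sh8, sh9, sh10, sh11, sh12, sh13, sh14, sh15, sh16, sh17, sh18, sh19, sh20, sh21, sh22, sh23, sh24, sh25, sh26, sh27, sh28, sh29, sh30, sh31, sh32, sh33, sh34, sh35, sh36, sh37, sh38, sh39, sh40, sh41, sh42, sh43, sh44, sh45, sh46, sh47, sh48, sh49, sh50, sh51]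

lemma shapes_ok : ∀ s ∈ shapes, s.ok := by
  simp only [shapes, List.forall_mem_cons, List.not_mem_nil, IsEmpty.forall_iff, implies_true, and_true]
  exact ⟨sh0_ok, sh1_ok, sh2_ok, sh3_ok, sh4_ok, sh5_ok, sh6_ok, sh7_ok, sh8_ok, sh9_ok, sh10_ok, sh11_ok, sh12_ok, sh13_ok, sh14_ok, sh15_ok, sh16_ok, sh17_ok, sh18_ok, sh19_ok, sh20_ok, sh21_ok, sh22_ok, sh23_ok, sh24_ok, sh25_ok, sh26_ok, sh27_ok, sh28_ok, sh29_ok, sh30_ok, sh31_ok, sh32_ok, sh33_ok, sh34_ok, sh35_ok, sh36_ok, sh37_ok, sh38_ok, sh39_ok, sh40_ok, sh41_ok, sh42_ok, sh43_ok, sh44_ok, sh45_ok, sh46_ok, sh47_ok, sh48_ok, sh49_ok, sh50_ok, sh51_ok⟩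

def dA : List (ℕ × ℕ × ℤ × ℤ) := [(1,1,18,3), (2,1,21,4), (3,1,20,0), (4,1,15,6), (5,1,12,2), (6,1,20,3), (4,1,12,0), (7,1,12,1), (8,1,20,1), (9,1,14,2), (10,1,14,0), (11,1,41,18), (12,1,40,21), (13,1,45,20), (14,1,40,15), (15,1,41,12), (1,1,42,20), (14,1,46,12), (16,1,44,12), (17,1,44,20), (18,1,43,14), (19,1,41,14), (20,1,15,29), (2,1,12,28), (8,1,12,33), (4,1,16,28), (5,1,22,29), (11,1,12,30), (4,1,19,34), (21,1,20,32), (3,1,12,32), (22,1,18,31), (23,1,14,29), (6,1,3,15), (12,1,4,12), (17,1,0,12), (14,1,6,16), (15,1,2,22), (20,1,3,12), (14,1,0,19), (24,1,1,20), (13,1,1,12), (25,1,2,18), (26,1,0,14), (15,1,38,12), (12,1,38,21), (27,1,38,17), (15,1,35,16), (8,1,35,17), (15,1,35,14), (3,1,35,19),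 (9,1,38,14), (12,1,36,21), (15,1,35,12), (15,1,32,16), (15,1,32,12), (28,1,34,21), (15,1,32,14), (29,1,31,19), (15,1,31,18), (15,1,29,16), (15,1,29,12), (15,1,29,14), (4,1,31,22), (30,1,17,22), (31,1,21,8), (32,1,10,16), (5,1,22,23), (5,1,16,18), (33,1,8,18), (15,1,26,12), (34,1,16,13), (21,1,10,11), (15,1,26,14), (2,1,11,18), (35,1,21,13), (12,1,6,12), (36,1,12,24), (37,1,14,20), (4,1,25,22), (2,1,12,26), (15,1,23,14), (5,1,12,5), (4,1,22,20), (22,1,20,17), (15,1,25,18), (24,1,15,25), (38,1,19,7), (15,1,22,18), (7,1,14,11), (15,1,5,22), (15,1,23,12), (39,1,12,19), (5,1,16,22), (40,1,12,14), (15,1,8,22), (24,1,22,10), (4,1,28,20), (31,1,6,18), (16,1,11,22), (28,1,14,9), (41,1,7,14), (15,1,26,16),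 (42,1,18,27), (4,1,16,15), (5,1,12,8), (4,1,25,20), (31,1,9,18), (35,1,21,15), (42,1,8,12), (42,1,18,24), (42,1,20,20), (25,1,20,21), (8,1,8,15), (42,1,14,8), (4,1,28,22), (43,1,13,12), (28,1,18,25), (44,1,17,19), (45,1,23,22), (5,1,14,22), (5,1,22,26), (17,1,18,8), (46,1,19,12), (15,1,28,18), (47,1,14,15), (15,1,23,16), (2,1,21,6), (16,1,18,17), (48,1,17,10), (28,1,14,6)]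

def dB : List (ℕ × ℕ × ℤ × ℤ) := [(1,1,18,3), (2,1,21,4), (3,1,20,0), (4,1,15,6), (5,1,12,2), (6,1,20,3), (4,1,12,0), (7,1,12,1), (8,1,20,1), (9,1,14,2), (10,1,14,0), (11,1,41,18), (12,1,40,21), (13,1,45,20), (14,1,40,15), (15,1,41,12), (1,1,42,20), (14,1,46,12), (16,1,44,12), (17,1,44,20), (18,1,43,14), (19,1,41,14), (20,1,15,29), (2,1,12,28), (8,1,12,33), (4,1,16,28), (5,1,22,29), (11,1,12,30), (4,1,19,34), (21,1,20,32), (3,1,12,32), (22,1,18,31), (23,1,14,29), (6,1,3,15), (12,1,4,12), (17,1,0,12), (14,1,6,16), (15,1,2,22), (20,1,3,12), (14,1,0,19), (24,1,1,20), (13,1,1,12), (25,1,2,18), (26,1,0,14), (15,1,38,12), (12,1,38,21), (27,1,38,17), (15,1,35,16), (8,1,35,17), (15,1,35,14), (3,1,35,19),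 (9,1,38,14), (12,1,36,21), (15,1,35,12), (28,1,34,21), (32,1,10,16), (33,1,8,18), (21,1,10,11), (2,1,11,18), (12,1,6,12), (2,1,12,26), (5,1,12,5), (24,1,15,25), (38,1,19,7), (15,1,5,22), (15,1,8,22), (31,1,6,18), (16,1,11,22), (41,1,7,14), (42,1,18,27), (31,1,9,18), (42,1,8,12), (8,1,8,15), (5,1,22,26), (2,1,21,6), (28,1,14,6), (49,1,21,13), (35,1,14,21), (50,1,16,23), (45,1,21,15), (45,1,23,22), (48,1,18,13), (44,1,13,16), (38,1,18,22), (47,1,15,18), (47,1,21,17), (37,1,19,11), (32,1,16,8), (25,1,14,23), (7,1,20,21), (24,1,22,10), (18,1,19,16), (36,1,12,24), (36,1,15,14), (36,1,17,18), (51,1,17,10), (28,1,18,25), (33,1,24,18), (33,1,27,18), (33,1,30,18), (33,1,33,18), (8,1,12,19), (31,1,21,8),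 (31,1,22,18), (31,1,25,18), (31,1,28,18), (31,1,31,18), (40,1,16,12), (2,1,18,19), (5,1,12,8), (5,1,20,22), (5,1,22,23), (4,1,25,22), (4,1,28,22), (4,1,31,22), (15,1,23,12), (15,1,23,14), (15,1,23,16), (15,1,26,12), (15,1,26,14), (15,1,26,16), (15,1,29,12), (15,1,29,14), (15,1,29,16), (15,1,32,12), (15,1,32,14), (15,1,32,16), (47,2,12,8)]

def tA : ℤ × ℤ := (16, 16)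
def tB : ℤ × ℤ := (16, 16)

end Pool.Agent.Lib.MP_ea7ca7_co
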