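import Mathlib

namespace Pool.Agent.Lib.MP_ea7ca7_co

/-- The closed unit square of the integer grid with lower left corner `c`. -/
def unitSquare (c : ℤ × ℤ) : Set (EuclideanSpace ℝ (Fin 2)) :=
  {p | (c.1 : ℝ) ≤ p 0 ∧ p 0 ≤ (c.1 : ℝ) + 1 ∧ (c.2 : ℝ) ≤ p 1 ∧ p 1 ≤ (c.2 : ℝ) + 1}

/-- The plane region formed by a finite set of grid squares. -/
def region (S : Finset (ℤ × ℤ)) : Set (EuclideanSpace ℝ (Fin 2)) :=
  ⋃ c ∈ S, unitSquare c

/-- A set of grid squares is connected through shared edges. -/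
def EdgeConnected (T : Set (ℤ × ℤ)) : Prop :=
  ∀ a ∈ T, ∀ b ∈ T,
    Relation.ReflTransGen (fun c d => c ∈ T ∧ d ∈ T ∧ |c.1 - d.1| + |c.2 - d.2| = 1) a b

/-- A polyomino that is a simple polygon: a nonempty finite edge-connected set of grid squares
whose complement is edge-connected too (no holes, no squares touching only at a corner). -/
def IsPolyomino (S : Finset (ℤ × ℤ)) : Prop :=
  S.Nonempty ∧ EdgeConnected (S : Set (ℤ × ℤ)) ∧ EdgeConnected (S : Set (ℤ × ℤ))ᶜ

/-- The surface of the cube `[0, l]^3`. -/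
def cubeSurface (l : ℝ) : Set (EuclideanSpace ℝ (Fin 3)) :=
  {q | (∀ i, 0 ≤ q i ∧ q i ≤ l) ∧ ∃ i, q i = 0 ∨ q i = l}

/-- `P` folds to the cube of edge `l`: a continuous map `f` that is distance preserving on each of
finitely many convex polygons covering `P` (their borders are the creases), maps `P` onto the
surface of the cube, and identifies no interior point of `P` with any other point of `P`. -/
def FoldsToCube (P : Set (EuclideanSpace ℝ (Fin 2))) (l : ℝ) : Prop :=
  ∃ (f : EuclideanSpace ℝ (Fin 2) → EuclideanSpace ℝ (Fin 3))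
    (F : Finset (Finset (EuclideanSpace ℝ (Fin 2)))),
    ContinuousOn f P ∧
    (⋃ V ∈ F, convexHull ℝ (V : Set (EuclideanSpace ℝ (Fin 2)))) = P ∧
    (∀ V ∈ F, ∀ x ∈ convexHull ℝ (V : Set (EuclideanSpace ℝ (Fin 2))),
      ∀ y ∈ convexHull ℝ (V : Set (EuclideanSpace ℝ (Fin 2))), dist (f x) (f y) = dist x y) ∧
    f '' P = cubeSurface l ∧
    ∀ x ∈ interior P, ∀ y ∈ P, f x = f y → x = y

/-- A polyomino that folds to some cube. -/
def IsCubeNet (S : Finset (ℤ × ℤ)) : Prop :=
  IsPolyomino S ∧ ∃ l : ℝ, 0 < l ∧ FoldsToCube (region S) l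

/-- A rep-cube of order `k`: a polyomino folding to a cube whose squares are partitioned into `k`
polyominoes each of which folds to a cube. -/
def IsRepCube (S : Finset (ℤ × ℤ)) (k : ℕ) : Prop :=
  IsCubeNet S ∧ ∃ Q : Finpartition S, Q.parts.card = k ∧ ∀ A ∈ Q.parts, IsCubeNet A

end Pool.Agent.Lib.MP_ea7ca7_co
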