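import Pool.Agent.Lib.MP_ea7ca7_co.Data

namespace Pool.Agent.Lib.MP_ea7ca7_co

def Part (S : Finset (ℤ × ℤ)) (L : List (Finset (ℤ × ℤ))) : Prop :=
  L.Pairwise Disjoint ∧ ∀ u, u ∈ S ↔ ∃ A ∈ L, u ∈ A

def Dis (N : Finset (ℤ × ℤ)) (k : ℕ) : Prop :=
  ∃ s, 0 < s ∧ ∃ L : List (Finset (ℤ × ℤ)), L.length = k ∧ Part (place s 0 N) L ∧ ∀ A ∈ L, IsCubeNet A

lemma coarse_mul (s0 s : ℕ) (u : ℤ × ℤ) : coarse (s0 * s) 0 u = coarse s0 0 (coarse s 0 u) := by
  simp only [coarse, Prod.fst_zero, Prod.snd_zero, sub_zero, Nat.cast_mul]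
  rw [Int.ediv_ediv_of_nonneg (by positivity), Int.ediv_ediv_of_nonneg (by positivity), mul_comm]

lemma coarse_swap (s : ℕ) (hs : 0 < s) (t u : ℤ × ℤ) :
    coarse 1 t (coarse s 0 u) = coarse s 0 (coarse 1 (s * t.1, s * t.2) u) := by
  have hs' : (s : ℤ) ≠ 0 := by exact_mod_cast hs.ne'
  simp only [coarse, Prod.fst_zero, Prod.snd_zero, sub_zero, Nat.cast_one, Int.ediv_one]
  rw [Int.sub_mul_ediv_left _ _ hs', Int.sub_mul_ediv_left _ _ hs']

lemma disjoint_place (s : ℕ) (hs : 0 < s) (t : ℤ × ℤ) {A B : Finset (ℤ × ℤ)} (h : Disjoint A B) :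
    Disjoint (place s t A) (place s t B) := by
  rw [Finset.disjoint_left] at *
  intro u h1 h2
  rw [mem_place s hs] at h1 h2
  exact h h1 h2

lemma Dis.one (N : Finset (ℤ × ℤ)) (hN : IsCubeNet N) : Dis N 1 :=
  ⟨1, one_pos, [place 1 0 N], rfl, ⟨by simp, by simp⟩, by simpa using hN.place 1 one_pos 0⟩

lemma Dis.step {N : Finset (ℤ × ℤ)} {s0 : ℕ} (h0 : 0 < s0) {t : ℤ × ℤ} {R : List (Finset (ℤ × ℤ))}
    (hP : Part (place s0 0 N) (place 1 t N :: R)) (hR : ∀ A ∈ R, IsCubeNet A) {k : ℕ} (h : Dis N k) :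
    Dis N (k + R.length) := by
  obtain ⟨s, hs, L, hlen, ⟨hL1, hL2⟩, hL3⟩ := h
  obtain ⟨hP1, hP2⟩ := hP
  rw [List.pairwise_cons] at hP1
  have key : ∀ u, coarse s 0 u ∈ place 1 t N ↔ ∃ B ∈ L, u ∈ place 1 (s * t.1, s * t.2) B := by
    intro u
    rw [mem_place 1 one_pos, coarse_swap s hs, ← mem_place s hs, hL2]
    simp only [mem_place 1 one_pos]
  refine ⟨s0 * s, Nat.mul_pos h0 hs, L.map (place 1 (s * t.1, s * t.2)) ++ R.map (place s 0),
    by simp [hlen], ⟨?_, ?_⟩, ?_⟩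
  · rw [List.pairwise_append, List.pairwise_map, List.pairwise_map]
    refine ⟨hL1.imp (disjoint_place 1 one_pos _), hP1.2.imp (disjoint_place s hs _), ?_⟩
    intro A hA B hB
    obtain ⟨A, hA', rfl⟩ := List.mem_map.1 hA
    obtain ⟨B, hB', rfl⟩ := List.mem_map.1 hB
    rw [Finset.disjoint_left]
    intro u h1 h2
    rw [mem_place s hs] at h2
    exact Finset.disjoint_left.1 (hP1.1 B hB') ((key u).2 ⟨A, hA', h1⟩) h2
  · intro u
    rw [mem_place _ (Nat.mul_pos h0 hs), coarse_mul, ← mem_place s0 h0, hP2]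
    simp only [List.mem_cons, exists_eq_or_imp, key, List.mem_append, List.mem_map]
    constructor
    · rintro (⟨B, hB, hu⟩ | ⟨A, hA, hu⟩)
      · exact ⟨_, Or.inl ⟨B, hB, rfl⟩, hu⟩
      · exact ⟨_, Or.inr ⟨A, hA, rfl⟩, (mem_place s hs _ _ _).2 hu⟩
    · rintro ⟨_, ⟨B, hB, rfl⟩ | ⟨A, hA, rfl⟩, hu⟩
      · exact Or.inl ⟨B, hB, hu⟩
      · exact Or.inr ⟨A, hA, (mem_place s hs _ _ _).1 hu⟩
  · intro A hA
    rcases List.mem_append.1 hA with hA | hA
    · obtain ⟨B, hB, rfl⟩ := List.mem_map.1 hA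
      exact (hL3 B hB).place 1 one_pos _
    · obtain ⟨B, hB, rfl⟩ := List.mem_map.1 hA
      exact (hR B hB).place s hs _

lemma Dis.rep {N : Finset (ℤ × ℤ)} (hN : IsCubeNet N) {k : ℕ} (h : Dis N k) : ∃ S, IsRepCube S k := by
  obtain ⟨s, hs, L, hlen, ⟨hL1, hL2⟩, hL3⟩ := h
  have hne : ∀ A ∈ L, A.Nonempty := fun A hA => (hL3 A hA).1.1
  have hnd : L.Nodup := by
    refine List.Pairwise.imp_of_mem ?_ hL1
    intro A B hA _ hAB e
    subst e
    exact (hne A hA).ne_empty ((Finset.disjoint_self_iff_empty A).1 hAB)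
  refine ⟨place s 0 N, hN.place s hs 0, ⟨L.toFinset, ?_, ?_, ?_⟩, ?_, ?_⟩
  · rw [Finset.supIndep_iff_pairwiseDisjoint]
    intro A hA B hB hAB
    have : Std.Symm (fun A B : Finset (ℤ × ℤ) => Disjoint A B) := ⟨fun _ _ h => Disjoint.symm h⟩
    exact hL1.forall (by simpa using hA) (by simpa using hB) hAB
  · ext u
    rw [hL2]
    simp [Finset.mem_sup]
  · intro hb
    exact (hne _ (List.mem_toFinset.1 hb)).ne_empty rfl
  · simp only
    rw [List.toFinset_card_of_nodup hnd, hlen]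
  · intro A hA
    exact hL3 A (List.mem_toFinset.1 hA)

def cellsOf (s : ℕ) (t : ℤ × ℤ) (C : List (ℤ × ℤ)) : List (ℤ × ℤ) :=
  C.flatMap fun c => (List.range s).flatMap fun (i : ℕ) => (List.range s).map fun (j : ℕ) =>
    (s * c.1 + i + t.1, s * c.2 + j + t.2)

lemma mem_cellsOf (s : ℕ) (t : ℤ × ℤ) (C : List (ℤ × ℤ)) (u : ℤ × ℤ) :
    u ∈ cellsOf s t C ↔ u ∈ place s t C.toFinset := by
  simp only [cellsOf, place, List.mem_flatMap, List.mem_map, List.mem_range, Finset.mem_biUnion,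
    List.mem_toFinset, Finset.mem_image, Finset.mem_product, Finset.mem_range, Prod.exists]
  constructor
  · rintro ⟨a, b, h, i, hi, j, hj, e⟩; exact ⟨a, b, h, i, j, ⟨hi, hj⟩, e⟩
  · rintro ⟨a, b, h, i, j, ⟨hi, hj⟩, e⟩; exact ⟨a, b, h, i, hi, j, hj, e⟩

def code (c : ℤ × ℤ) : ℕ := (c.1 + 64 * c.2).toNat

def inBox (c : ℤ × ℤ) : Bool := decide (0 ≤ c.1 ∧ c.1 < 64 ∧ 0 ≤ c.2)

lemma code_inj {c d : ℤ × ℤ} (hc : inBox c = true) (hd : inBox d = true) (h : code c = code d) : c = d := by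
  simp only [inBox, decide_eq_true_eq] at hc hd
  simp only [code] at h
  ext <;> omega

def mask : List (ℤ × ℤ) → ℕ
  | [] => 0
  | c :: C => 2 ^ code c ||| mask C

lemma testBit_mask (C : List (ℤ × ℤ)) (i : ℕ) : (mask C).testBit i = true ↔ ∃ c ∈ C, code c = i := by
  induction C with
  | nil => simp [mask]
  | cons c C ih => simp [mask, Nat.testBit_or, ih, Nat.testBit_two_pow]

def go (target : ℕ) : ℕ → List (List (ℤ × ℤ)) → Bool
  | acc, [] => acc == target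
  | acc, C :: Cs => C.all inBox && (acc &&& mask C == 0) && go target (acc ||| mask C) Cs

lemma go_sound (target : ℕ) : ∀ (Cs : List (List (ℤ × ℤ))) (acc : ℕ), go target acc Cs = true →
    (∀ C ∈ Cs, ∀ c ∈ C, inBox c = true) ∧
    Cs.Pairwise (fun A B => ∀ u, u ∈ A → u ∉ B) ∧
    (∀ C ∈ Cs, ∀ c ∈ C, acc.testBit (code c) = false) ∧
    ∀ i, target.testBit i = true ↔ acc.testBit i = true ∨ ∃ C ∈ Cs, ∃ c ∈ C, code c = i
  | [], acc, h => by
    simp only [go, beq_iff_eq] at h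
    simp [h]
  | C :: Cs, acc, h => by
    simp only [go, Bool.and_eq_true, List.all_eq_true, beq_iff_eq] at h
    obtain ⟨⟨h1, h2⟩, h3⟩ := h
    obtain ⟨i1, i2, i3, i4⟩ := go_sound target Cs _ h3
    refine ⟨?_, ?_, ?_, ?_⟩
    · intro D hD
      rcases List.mem_cons.1 hD with rfl | hD
      · exact h1
      · exact i1 D hD
    · rw [List.pairwise_cons]
      refine ⟨fun D hD u hu hu' => ?_, i2⟩
      have := i3 D hD u hu'
      rw [Nat.testBit_or, (testBit_mask C _).2 ⟨u, hu, rfl⟩] at this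
      simp at this
    · intro D hD c hc
      rcases List.mem_cons.1 hD with rfl | hD
      · have := congrArg (fun n => n.testBit (code c)) h2
        simp only [Nat.testBit_and, (testBit_mask D _).2 ⟨c, hc, rfl⟩, Bool.and_true,
          Nat.zero_testBit] at this
        exact this
      · have := i3 D hD c hc
        rw [Nat.testBit_or, Bool.or_eq_false_iff] at this
        exact this.1
    · intro i
      rw [i4, Nat.testBit_or, Bool.or_eq_true, testBit_mask]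
      simp only [List.mem_cons, exists_eq_or_imp, or_assoc]

lemma part_of_go (T : List (ℤ × ℤ)) (Cs : List (List (ℤ × ℤ))) (hT : T.all inBox = true)
    (h : go (mask T) 0 Cs = true) :
    Cs.Pairwise (fun A B => ∀ u, u ∈ A → u ∉ B) ∧ ∀ u, u ∈ T ↔ ∃ C ∈ Cs, u ∈ C := by
  obtain ⟨h1, h2, _, h4⟩ := go_sound _ _ _ h
  rw [List.all_eq_true] at hT
  refine ⟨h2, fun u => ⟨fun hu => ?_, ?_⟩⟩
  · have := (h4 (code u)).1 ((testBit_mask _ _).2 ⟨u, hu, rfl⟩)
    simp only [Nat.zero_testBit, Bool.false_eq_true, false_or] at this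
    obtain ⟨C, hC, c, hc, e⟩ := this
    exact ⟨C, hC, code_inj (h1 C hC c hc) (hT u hu) e ▸ hc⟩
  · rintro ⟨C, hC, hu⟩
    obtain ⟨c, hc, e⟩ := (testBit_mask _ _).1 ((h4 (code u)).2 (Or.inr ⟨C, hC, u, hu, rfl⟩))
    exact code_inj (hT c hc) (h1 C hC u hu) e ▸ hc

def shapeAt (i : ℕ) : Shape := shapes.getD i sh0

lemma shapeAt_ok (i : ℕ) : (shapeAt i).ok := by
  unfold shapeAt
  rw [List.getD_eq_getElem?_getD]
  cases h : shapes[i]? with
  | none => exact sh0_ok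
  | some s => exact shapes_ok s (List.mem_of_getElem? h)

def pieceL (p : ℕ × ℕ × ℤ × ℤ) : List (ℤ × ℤ) := cellsOf p.2.1 p.2.2 (shapeAt p.1).cells
def pieceF (p : ℕ × ℕ × ℤ × ℤ) : Finset (ℤ × ℤ) := place p.2.1 p.2.2 (shapeAt p.1).cells.toFinset

lemma step_of_check (s0 : ℕ) (h0 : 0 < s0) (t : ℤ × ℤ) (d : List (ℕ × ℕ × ℤ × ℤ))
    (hd : ∀ p ∈ d, 0 < p.2.1) (hT : (cellsOf s0 0 sh0.cells).all inBox = true)
    (h : go (mask (cellsOf s0 0 sh0.cells)) 0 (((0, 1, t) :: d).map pieceL) = true) {k : ℕ}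
    (hk : Dis sh0.cells.toFinset k) : Dis sh0.cells.toFinset (k + d.length) := by
  obtain ⟨h1, h2⟩ := part_of_go _ _ hT h
  have hP : Part (place s0 0 sh0.cells.toFinset) (((0, 1, t) :: d).map pieceF) := by
    constructor
    · rw [List.pairwise_map] at h1 ⊢
      refine h1.imp fun {a b} hab => ?_
      rw [Finset.disjoint_left]
      intro u hu hu'
      exact hab u ((mem_cellsOf _ _ _ _).2 hu) ((mem_cellsOf _ _ _ _).2 hu')
    · intro u
      rw [← mem_cellsOf, h2]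
      constructor
      · rintro ⟨C, hC, hu⟩
        obtain ⟨p, hp, rfl⟩ := List.mem_map.1 hC
        exact ⟨_, List.mem_map.2 ⟨p, hp, rfl⟩, (mem_cellsOf _ _ _ _).1 hu⟩
      · rintro ⟨C, hC, hu⟩
        obtain ⟨p, hp, rfl⟩ := List.mem_map.1 hC
        exact ⟨_, List.mem_map.2 ⟨p, hp, rfl⟩, (mem_cellsOf _ _ _ _).2 hu⟩
  have := Dis.step (N := sh0.cells.toFinset) h0 (t := t) (R := d.map pieceF) hP (by
    intro A hA
    obtain ⟨p, hp, rfl⟩ := List.mem_map.1 hA
    exact (Shape.net (shapeAt_ok p.1)).place _ (hd p hp) _) hk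
  simpa using this

lemma boxT : (cellsOf 12 0 sh0.cells).all inBox = true := by decide +kernel

lemma stepA {k : ℕ} (hk : Dis sh0.cells.toFinset k) : Dis sh0.cells.toFinset (k + 131) :=
  step_of_check 12 (by norm_num) tA dA (by decide +kernel) boxT (by decide +kernel) hk

lemma stepB {k : ℕ} (hk : Dis sh0.cells.toFinset k) : Dis sh0.cells.toFinset (k + 128) :=
  step_of_check 12 (by norm_num) tB dB (by decide +kernel) boxT (by decide +kernel) hk

lemma dis_ab (a b : ℕ) : Dis sh0.cells.toFinset (1 + 131 * a + 128 * b) := by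
  induction b with
  | zero =>
    induction a with
    | zero => exact Dis.one _ (Shape.net sh0_ok)
    | succ a ih => have := stepA ih; convert this using 1; ring
  | succ b ih => have := stepB ih; convert this using 1; ring

theorem main (k : ℕ) (hk : 16637 < k) : ∃ S, IsRepCube S k := by
  apply Dis.rep (Shape.net sh0_ok)
  have := dis_ab ((43 * (k - 1)) % 128) ((k - 1 - 131 * ((43 * (k - 1)) % 128)) / 128)
  convert this using 1
  omega

end Pool.Agent.Lib.MP_ea7ca7_co
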