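import Pool.Agent.Lib.MP_ea7ca7_co.Check

namespace Pool.Agent.Lib.MP_ea7ca7_co

abbrev Tile := (ℤ × ℤ) × Fr

def cl9 (c : ℤ × ℤ) : List (ℤ × ℤ) :=
  [(2 * c.1, 2 * c.2), (2 * c.1 + 1, 2 * c.2), (2 * c.1 + 2, 2 * c.2),
   (2 * c.1, 2 * c.2 + 1), (2 * c.1 + 1, 2 * c.2 + 1), (2 * c.1 + 2, 2 * c.2 + 1),
   (2 * c.1, 2 * c.2 + 2), (2 * c.1 + 1, 2 * c.2 + 2), (2 * c.1 + 2, 2 * c.2 + 2)]

lemma mem_cl9 (c u : ℤ × ℤ) (h : inCl c u) : u ∈ cl9 c := by
  obtain ⟨a, b⟩ := u
  simp only [inCl] at h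
  simp only [cl9, List.mem_cons, Prod.mk.injEq, List.not_mem_nil]
  omega

def inner (C : List (ℤ × ℤ)) (u : ℤ × ℤ) : Prop :=
  ((u.1 - 1) / 2, (u.2 - 1) / 2) ∈ C ∧ (u.1 / 2, (u.2 - 1) / 2) ∈ C ∧
  ((u.1 - 1) / 2, u.2 / 2) ∈ C ∧ (u.1 / 2, u.2 / 2) ∈ C

instance (C : List (ℤ × ℤ)) (u : ℤ × ℤ) : Decidable (inner C u) := by unfold inner; infer_instance

/-- certificate that the squares of `L` fold to the cube of edge `l` -/
def foldOK (l : ℕ) (L : List Tile) : Prop :=
  (∀ e ∈ L, e.2.ok ∧ intoOK l e.1 e.2) ∧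
  (∀ w ∈ centres l, ∃ e ∈ L, e.2.dbl (2 * e.1.1 + 1, 2 * e.1.2 + 1) = w) ∧
  (∀ e ∈ L, ∀ u ∈ cl9 e.1, ∀ e' ∈ L, inCl e'.1 u → e.2.dbl u = e'.2.dbl u) ∧
  (∀ e ∈ L, ∀ u ∈ cl9 e.1, inner (L.map Prod.fst) u →
    ∀ e' ∈ L, ¬ inCl e'.1 u → ∀ v ∈ cl9 e'.1, e.2.dbl u ≠ e'.2.dbl v)

instance (l : ℕ) (L : List Tile) : Decidable (foldOK l L) := by unfold foldOK; infer_instance

lemma convex_sq (c : ℤ × ℤ) : Convex ℝ (unitSquare c) := by
  intro x hx y hy a b ha hb hab
  obtain ⟨x1, x2, x3, x4⟩ := hx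
  obtain ⟨y1, y2, y3, y4⟩ := hy
  simp only [unitSquare, Set.mem_ofPred_eq, PiLp.add_apply, PiLp.smul_apply, smul_eq_mul]
  have e : b = 1 - a := by linarith
  subst e
  refine ⟨?_, ?_, ?_, ?_⟩ <;> nlinarith

open Classical in
noncomputable def corners (c : ℤ × ℤ) : Finset Plane :=
  {!₂[(c.1 : ℝ), (c.2 : ℝ)], !₂[(c.1 : ℝ) + 1, (c.2 : ℝ)], !₂[(c.1 : ℝ), (c.2 : ℝ) + 1],
    !₂[(c.1 : ℝ) + 1, (c.2 : ℝ) + 1]}

lemma hull_corners (c : ℤ × ℤ) : convexHull ℝ (corners c : Set Plane) = unitSquare c := by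
  classical
  apply le_antisymm
  · apply convexHull_min _ (convex_sq c)
    intro p hp
    simp only [corners, Finset.coe_insert, Finset.coe_singleton, Set.mem_insert_iff,
      Set.mem_singleton_iff] at hp
    rcases hp with rfl | rfl | rfl | rfl <;> simp [unitSquare]
  · rintro x ⟨x1, x2, x3, x4⟩
    have cv := convex_convexHull ℝ (corners c : Set Plane)
    have m : ∀ p ∈ corners c, p ∈ convexHull ℝ (corners c : Set Plane) :=
      fun p hp => subset_convexHull ℝ _ hp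
    have lo := cv (m !₂[(c.1 : ℝ), (c.2 : ℝ)] (by simp [corners]))
      (m !₂[(c.1 : ℝ) + 1, (c.2 : ℝ)] (by simp [corners]))
      (a := 1 - (x 0 - c.1)) (b := x 0 - c.1) (by linarith) (by linarith) (by ring)
    have hi := cv (m !₂[(c.1 : ℝ), (c.2 : ℝ) + 1] (by simp [corners]))
      (m !₂[(c.1 : ℝ) + 1, (c.2 : ℝ) + 1] (by simp [corners]))
      (a := 1 - (x 0 - c.1)) (b := x 0 - c.1) (by linarith) (by linarith) (by ring)
    have := cv lo hi (a := 1 - (x 1 - c.2)) (b := x 1 - c.2) (by linarith) (by linarith) (by ring)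
    convert this using 1
    ext i
    fin_cases i <;> simp <;> ring

lemma isClosed_sq (c : ℤ × ℤ) : IsClosed (unitSquare c) := by
  rw [← hull_corners]
  exact ((corners c).finite_toSet.isCompact_convexHull ℝ).isClosed

lemma mem_of_interior (S : Finset (ℤ × ℤ)) (x : Plane) (hx : x ∈ interior (region S)) (c : ℤ × ℤ)
    (hc : x ∈ unitSquare c) : c ∈ S := by
  obtain ⟨x1, x2, x3, x4⟩ := hc
  let m : Plane := !₂[(c.1 : ℝ) + 1 / 2, (c.2 : ℝ) + 1 / 2]
  have hcont : Continuous (fun t : ℝ => x + t • (m - x)) := by fun_prop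
  have hev : ∀ᶠ t in nhds (0 : ℝ), x + t • (m - x) ∈ interior (region S) := by
    apply hcont.continuousAt.eventually
    simp only [zero_smul, add_zero]
    exact isOpen_interior.mem_nhds hx
  have h2 : ∀ᶠ t in nhdsWithin (0 : ℝ) (Set.Ioi 0), x + t • (m - x) ∈ interior (region S) ∧ t ∈ Set.Ioo (0 : ℝ) 1 :=
    (hev.filter_mono nhdsWithin_le_nhds).and (Ioo_mem_nhdsGT zero_lt_one)
  obtain ⟨t, ht, t0, t1⟩ := h2.exists
  have := interior_subset ht
  simp only [region, Set.mem_iUnion, exists_prop] at this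
  obtain ⟨d, hd, d1, d2, d3, d4⟩ := this
  simp only [m, PiLp.add_apply, PiLp.smul_apply, PiLp.sub_apply, smul_eq_mul] at d1 d2 d3 d4
  simp only [Matrix.cons_val_zero, Matrix.cons_val_one] at d1 d2 d3 d4
  have key : ∀ (a b : ℤ) (s : ℝ), (a : ℝ) ≤ s → s ≤ a + 1 → (b : ℝ) ≤ s + t * (a + 1 / 2 - s) →
      s + t * (a + 1 / 2 - s) ≤ b + 1 → a = b := by
    intro a b s p1 p2 q1 q2
    have r1 : (a : ℝ) < s + t * (a + 1 / 2 - s) := by nlinarith
    have r2 : s + t * (a + 1 / 2 - s) < a + 1 := by nlinarith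
    have u1 : (b : ℝ) < a + 1 := by linarith
    have u2 : (a : ℝ) < b + 1 := by linarith
    have v1 : b < a + 1 := by exact_mod_cast u1
    have v2 : a < b + 1 := by exact_mod_cast u2
    omega
  have e : c = d := Prod.ext (key _ _ _ x1 x2 d1 d2) (key _ _ _ x3 x4 d3 d4)
  rw [e]; exact hd

theorem folds_of_ok (l : ℕ) (hl : 0 < l) (L : List Tile) (h : foldOK l L) :
    FoldsToCube (region (L.map Prod.fst).toFinset) l := by
  classical
  obtain ⟨hok, honto, hcons, hinj⟩ := h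
  let f : Plane → Space := fun x =>
    if h : ∃ e ∈ L, x ∈ unitSquare e.1 then (Classical.choose h).2.app x else 0
  have hf : ∀ e ∈ L, ∀ x ∈ unitSquare e.1, f x = e.2.app x := by
    intro e he x hx
    have hex : ∃ e ∈ L, x ∈ unitSquare e.1 := ⟨e, he, hx⟩
    have hs := Classical.choose_spec hex
    simp only [f, dif_pos hex]
    exact app_agree _ _ _ _ x hs.2 hx fun u h1 h2 => hcons _ hs.1 u (mem_cl9 _ _ h1) e he h2
  have hreg : ∀ x, x ∈ region (L.map Prod.fst).toFinset ↔ ∃ e ∈ L, x ∈ unitSquare e.1 := by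
    intro x
    simp only [region, Set.mem_iUnion, exists_prop, List.mem_toFinset, List.mem_map]
    constructor
    · rintro ⟨_, ⟨e, he, rfl⟩, hx⟩; exact ⟨e, he, hx⟩
    · rintro ⟨e, he, hx⟩; exact ⟨_, ⟨e, he, rfl⟩, hx⟩
  have hiso : ∀ c ∈ (L.map Prod.fst).toFinset, ∀ x ∈ unitSquare c, ∀ y ∈ unitSquare c,
      dist (f x) (f y) = dist x y := by
    intro c hc x hx y hy
    simp only [List.mem_toFinset, List.mem_map] at hc
    obtain ⟨e, he, rfl⟩ := hc
    rw [hf e he x hx, hf e he y hy, app_dist _ (hok e he).1]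
  refine ⟨f, (L.map Prod.fst).toFinset.image corners, ?_, ?_, ?_, ?_, ?_⟩
  · unfold region
    rw [← Finset.set_biUnion_coe, Set.biUnion_eq_iUnion]
    apply LocallyFinite.continuousOn_iUnion (locallyFinite_of_finite _) (fun c => isClosed_sq _)
    intro c
    apply LipschitzOnWith.continuousOn (K := 1)
    apply LipschitzOnWith.of_dist_le_mul
    intro x hx y hy
    rw [hiso c c.2 x hx y hy]; simp
  · rw [Finset.set_biUnion_finset_image]
    simp only [hull_corners]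
    rfl
  · intro V hV
    obtain ⟨c, hc, rfl⟩ := Finset.mem_image.1 hV
    rw [hull_corners]
    exact hiso c hc
  · ext z
    constructor
    · rintro ⟨x, hx, rfl⟩
      obtain ⟨e, he, hxe⟩ := (hreg x).1 hx
      rw [hf e he x hxe]
      exact app_into l e.1 e.2 (hok e he).1 (hok e he).2 x hxe
    · intro hz
      obtain ⟨w, hw, n0, n1, n2⟩ := centre_exists l hl z hz
      obtain ⟨e, he, rfl⟩ := honto w hw
      obtain ⟨x, hx, hxz⟩ := app_onto e.1 e.2 (hok e he).1 z n0 n1 n2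
      exact ⟨x, (hreg x).2 ⟨e, he, hx⟩, by rw [hf e he x hx, hxz]⟩
  · intro x hx y hy hxy
    obtain ⟨e, he, hxe⟩ := (hreg x).1 (interior_subset hx)
    obtain ⟨e', he', hye⟩ := (hreg y).1 hy
    have hin : inner (L.map Prod.fst) (st2 x) := by
      have k : ∀ c, inCl c (st2 x) → c ∈ L.map Prod.fst := fun c hc =>
        List.mem_toFinset.1 (mem_of_interior _ x hx c ((mem_sq_iff c x).2 hc))
      refine ⟨k _ ?_, k _ ?_, k _ ?_, k _ ?_⟩ <;> simp only [inCl] <;> omega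
    have hxe' : x ∈ unitSquare e'.1 := by
      rw [mem_sq_iff]
      by_contra hn
      apply hinj e he _ (mem_cl9 _ _ ((mem_sq_iff _ _).1 hxe)) hin e' he' hn _
        (mem_cl9 _ _ ((mem_sq_iff _ _).1 hye))
      rw [← st3_app _ (hok e he).1, ← st3_app _ (hok e' he').1, ← hf e he x hxe, ← hf e' he' y hye, hxy]
    have := hiso e'.1 (by simp only [List.mem_toFinset, List.mem_map]; exact ⟨e', he', rfl⟩) x hxe' y hye
    rw [hxy, dist_self] at this
    exact dist_eq_zero.1 this.symm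

def adjB (c d : ℤ × ℤ) : Bool := (c.1 - d.1).natAbs + (c.2 - d.2).natAbs == 1

/-- every square of the list is adjacent to a later one -/
def chain : List (ℤ × ℤ) → Bool
  | [] => true
  | c :: C => (C.isEmpty || C.any (adjB c)) && chain C

lemma chain_conn (T : Set (ℤ × ℤ)) : ∀ C : List (ℤ × ℤ), chain C = true → (∀ c ∈ C, c ∈ T) →
    ∀ a ∈ C, ∀ b ∈ C, Conn T a b
  | [], _, _ => by simp
  | c :: C, h, hT => by
    simp only [chain, Bool.and_eq_true, Bool.or_eq_true, List.isEmpty_iff, List.any_eq_true] at h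
    have ih := chain_conn T C h.2 (fun d hd => hT d (List.mem_cons_of_mem _ hd))
    have key : ∀ b ∈ C, Conn T c b := by
      intro b hb
      rcases h.1 with h0 | ⟨d, hd, hadj⟩
      · rw [h0] at hb; simp at hb
      · refine Relation.ReflTransGen.head ⟨hT c (by simp), hT d (by simp [hd]), ?_⟩ (ih d hd b hb)
        simp only [adjB, beq_iff_eq] at hadj
        rw [Int.abs_eq_natAbs, Int.abs_eq_natAbs]
        omega
    intro a ha b hb
    rcases List.mem_cons.1 ha with ha' | ha' <;> rcases List.mem_cons.1 hb with hb' | hb'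
    · rw [ha', hb']
    · rw [ha']; exact key b hb'
    · rw [hb']; exact (key a ha').symm'
    · exact ih a ha' b hb'

/-- certificate for being a simple polyomino inside the box `[0,W) × [0,H)` -/
def polyOK (W H : ℕ) (C D : List (ℤ × ℤ)) : Prop :=
  C ≠ [] ∧ chain C = true ∧ chain D = true ∧
  (∀ c ∈ C, 0 ≤ c.1 ∧ c.1 < W ∧ 0 ≤ c.2 ∧ c.2 < H) ∧ (∀ d ∈ D, d ∉ C) ∧
  (∀ i ∈ List.range (W + 2), ∀ j ∈ List.range (H + 2),
    ((i : ℤ) - 1, (j : ℤ) - 1) ∈ C ∨ ((i : ℤ) - 1, (j : ℤ) - 1) ∈ D)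

instance (W H : ℕ) (C D : List (ℤ × ℤ)) : Decidable (polyOK W H C D) := by
  unfold polyOK; infer_instance

theorem poly_of_ok (W H : ℕ) (C D : List (ℤ × ℤ)) (h : polyOK W H C D) : IsPolyomino C.toFinset := by
  obtain ⟨h0, h1, h2, h3, h4, h5⟩ := h
  refine ⟨by simpa using h0, ?_, ?_⟩
  · intro a ha b hb
    exact chain_conn _ C h1 (fun c hc => by simpa using hc) a (by simpa using ha) b (by simpa using hb)
  · have out : ∀ x y : ℤ, (x < 0 ∨ (W : ℤ) ≤ x ∨ y < 0 ∨ (H : ℤ) ≤ y) →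
        (x, y) ∈ ((C.toFinset : Set (ℤ × ℤ))ᶜ) := by
      intro x y hxy hm
      have := h3 (x, y) (by simpa using hm)
      simp only at this
      omega
    have key : ∀ a ∈ ((C.toFinset : Set (ℤ × ℤ))ᶜ), ∃ d ∈ D, Conn ((C.toFinset : Set (ℤ × ℤ))ᶜ) a d := by
      intro a ha
      have hm := h5 (max (-1) (min a.1 W) + 1).toNat (by simp only [List.mem_range]; omega)
        (max (-1) (min a.2 H) + 1).toNat (by simp only [List.mem_range]; omega)
      have e1 : ((max (-1) (min a.1 W) + 1).toNat : ℤ) - 1 = max (-1) (min a.1 W) := by omega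
      have e2 : ((max (-1) (min a.2 H) + 1).toNat : ℤ) - 1 = max (-1) (min a.2 H) := by omega
      rw [e1, e2] at hm
      by_cases hin : 0 ≤ a.1 ∧ a.1 < W ∧ 0 ≤ a.2 ∧ a.2 < H
      · have e : (max (-1) (min a.1 W), max (-1) (min a.2 H)) = a := by
          ext <;> simp only <;> omega
        rw [e] at hm
        rcases hm with hm | hm
        · exact absurd (by simpa using hm) ha
        · exact ⟨a, hm, Relation.ReflTransGen.refl⟩
      · rcases hm with hm | hm
        · have := h3 _ hm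
          simp only at this
          omega
        · refine ⟨_, hm, walkRect _ _ _ ?_⟩
          intro x y p1 p2 p3 p4
          simp only at p1 p2 p3 p4
          apply out
          omega
    intro a ha b hb
    obtain ⟨d, hd, had⟩ := key a ha
    obtain ⟨e, he, hbe⟩ := key b hb
    have hde := chain_conn ((C.toFinset : Set (ℤ × ℤ))ᶜ) D h2 (fun c hc => by simpa using h4 c hc) d hd e he
    exact (had.trans hde).trans hbe.symm'

/-- a shape with its certificate -/
structure Shape where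
  l : ℕ
  W : ℕ
  H : ℕ
  L : List Tile
  D : List (ℤ × ℤ)

def Shape.cells (s : Shape) : List (ℤ × ℤ) := s.L.map Prod.fst

def Shape.ok (s : Shape) : Prop := 0 < s.l ∧ foldOK s.l s.L ∧ polyOK s.W s.H s.cells s.D

instance (s : Shape) : Decidable s.ok := by unfold Shape.ok; infer_instance

theorem Shape.net {s : Shape} (h : s.ok) : IsCubeNet s.cells.toFinset :=
  ⟨poly_of_ok _ _ _ _ h.2.2, s.l, by exact_mod_cast h.1, folds_of_ok _ h.1 _ h.2.1⟩

end Pool.Agent.Lib.MP_ea7ca7_co
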