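import Pool.Agent.Lib.MP_ea7ca7_co.Defs

namespace Pool.Agent.Lib.MP_ea7ca7_co

abbrev Plane := EuclideanSpace ℝ (Fin 2)
abbrev Space := EuclideanSpace ℝ (Fin 3)

/-- similarity `x ↦ r x + t` -/
noncomputable def simA (r : ℝ) (t : Plane) : Plane →ᵃ[ℝ] Plane :=
  AffineMap.mk (fun x => r • x + t) (r • LinearMap.id) (by
    intro p v
    simp [smul_add, add_assoc])

lemma simA_apply (r : ℝ) (t x : Plane) : simA r t x = r • x + t := rfl

noncomputable def simH (r : ℝ) (hr : r ≠ 0) (t : Plane) : Plane ≃ₜ Plane :=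
  (Homeomorph.smulOfNeZero r hr).trans (Homeomorph.addRight t)

lemma simH_apply (r : ℝ) (hr : r ≠ 0) (t x : Plane) : simH r hr t x = r • x + t := rfl

lemma cubeSurface_smul (r l : ℝ) (hr : 0 < r) (z : Space) :
    r • z ∈ cubeSurface (r * l) ↔ z ∈ cubeSurface l := by
  simp only [cubeSurface, Set.mem_ofPred_eq, PiLp.smul_apply, smul_eq_mul]
  constructor
  · rintro ⟨h1, i, h2⟩
    refine ⟨fun j => ⟨?_, ?_⟩, i, ?_⟩
    · exact (mul_nonneg_iff_of_pos_left hr).1 (h1 j).1
    · exact le_of_mul_le_mul_left (h1 j).2 hr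
    · rcases h2 with h | h
      · left; exact (mul_eq_zero.1 h).resolve_left hr.ne'
      · right; exact mul_left_cancel₀ hr.ne' h
  · rintro ⟨h1, i, h2⟩
    refine ⟨fun j => ⟨mul_nonneg hr.le (h1 j).1, mul_le_mul_of_nonneg_left (h1 j).2 hr.le⟩, i, ?_⟩
    rcases h2 with h | h
    · left; rw [h, mul_zero]
    · right; rw [h]

theorem FoldsToCube.sim {P : Set Plane} {l : ℝ} (h : FoldsToCube P l) (r : ℝ) (hr : 0 < r)
    (t : Plane) : FoldsToCube ((fun x => r • x + t) '' P) (r * l) := by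
  classical
  obtain ⟨f, F, hc, hF, hiso, him, hinj⟩ := h
  have hback : ∀ x : Plane, r⁻¹ • (r • x + t - t) = x := by
    intro x; rw [add_sub_cancel_right, smul_smul, inv_mul_cancel₀ hr.ne', one_smul]
  have hull : ∀ V : Finset Plane, convexHull ℝ ((V.image (fun x => r • x + t) : Finset Plane) : Set Plane)
      = (fun x => r • x + t) '' convexHull ℝ (V : Set Plane) := by
    intro V
    rw [Finset.coe_image]
    exact ((simA r t).image_convexHull _).symm
  refine ⟨fun y => r • f (r⁻¹ • (y - t)), F.image (fun V => V.image (fun x => r • x + t)),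
    ?_, ?_, ?_, ?_, ?_⟩
  · have h1 : ContinuousOn (f ∘ fun y : Plane => r⁻¹ • (y - t)) ((fun x => r • x + t) '' P) := by
      apply hc.comp (by fun_prop)
      rintro _ ⟨x, hx, rfl⟩
      simp only [hback]
      exact hx
    exact h1.const_smul r
  · rw [← hF]
    ext y
    simp only [Set.mem_iUnion, Finset.mem_image, exists_prop, Set.mem_image]
    constructor
    · rintro ⟨_, ⟨V, hV, rfl⟩, hy⟩
      rw [hull] at hy
      obtain ⟨x, hx, rfl⟩ := hy
      exact ⟨x, ⟨V, hV, hx⟩, rfl⟩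
    · rintro ⟨x, ⟨V, hV, hx⟩, rfl⟩
      exact ⟨_, ⟨V, hV, rfl⟩, by rw [hull]; exact ⟨x, hx, rfl⟩⟩
  · intro V' hV' x' hx' y' hy'
    obtain ⟨V, hV, rfl⟩ := Finset.mem_image.1 hV'
    rw [hull] at hx' hy'
    obtain ⟨x, hx, rfl⟩ := hx'
    obtain ⟨y, hy, rfl⟩ := hy'
    simp only [hback]
    rw [dist_smul₀, hiso V hV x hx y hy, dist_add_right, dist_smul₀]
  · rw [Set.image_image]
    simp only [hback]
    ext z
    constructor
    · rintro ⟨x, hx, rfl⟩
      rw [cubeSurface_smul r l hr, ← him]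
      exact ⟨x, hx, rfl⟩
    · intro hz
      have e : z = r • (r⁻¹ • z) := by rw [smul_smul, mul_inv_cancel₀ hr.ne', one_smul]
      rw [e, cubeSurface_smul r l hr, ← him] at hz
      obtain ⟨x, hx, hxz⟩ := hz
      exact ⟨x, hx, by simp only [hxz]; exact e.symm⟩
  · intro x' hx' y' hy' hxy
    have hi : interior ((fun x => r • x + t) '' P) = (fun x => r • x + t) '' interior P :=
      ((simH r hr.ne' t).image_interior P).symm
    rw [hi] at hx'
    obtain ⟨x, hx, rfl⟩ := hx'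
    obtain ⟨y, hy, rfl⟩ := hy'
    simp only [hback] at hxy
    have := smul_right_injective _ hr.ne' hxy
    rw [hinj x hx y hy this]

/-- the coarse square containing a fine square -/
def coarse (s : ℕ) (t u : ℤ × ℤ) : ℤ × ℤ := ((u.1 - t.1) / s, (u.2 - t.2) / s)

/-- `S` scaled by `s` and translated by `t` -/
def place (s : ℕ) (t : ℤ × ℤ) (S : Finset (ℤ × ℤ)) : Finset (ℤ × ℤ) :=
  S.biUnion (fun c => ((Finset.range s) ×ˢ (Finset.range s)).image
    (fun ij => (s * c.1 + ij.1 + t.1, s * c.2 + ij.2 + t.2)))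

lemma ediv_iff (s : ℕ) (hs : 0 < s) (a c : ℤ) : a / s = c ↔ s * c ≤ a ∧ a < s * c + s := by
  have hs' : (0 : ℤ) < s := by exact_mod_cast hs
  constructor
  · rintro rfl
    have h1 := Int.mul_ediv_add_emod a s
    have h2 := Int.emod_nonneg a hs'.ne'
    have h3 := Int.emod_lt_of_pos a hs'
    omega
  · rintro ⟨h1, h2⟩
    apply le_antisymm
    · apply Int.le_of_lt_add_one
      rw [Int.ediv_lt_iff_lt_mul hs']
      nlinarith
    · rw [Int.le_ediv_iff_mul_le hs']
      nlinarith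

lemma mem_place (s : ℕ) (hs : 0 < s) (t : ℤ × ℤ) (S : Finset (ℤ × ℤ)) (u : ℤ × ℤ) :
    u ∈ place s t S ↔ coarse s t u ∈ S := by
  simp only [place, Finset.mem_biUnion, Finset.mem_image, Finset.mem_product, Finset.mem_range]
  constructor
  · rintro ⟨c, hc, ⟨i, j⟩, ⟨hi, hj⟩, rfl⟩
    have : coarse s t (s * c.1 + (i : ℤ) + t.1, s * c.2 + (j : ℤ) + t.2) = c := by
      unfold coarse
      simp only at hi hj
      ext
      · simp only; rw [ediv_iff s hs]; omega
      · simp only; rw [ediv_iff s hs]; omega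
    rw [this]; exact hc
  · intro h
    have h1 := (ediv_iff s hs (u.1 - t.1) _).1 rfl
    have h2 := (ediv_iff s hs (u.2 - t.2) _).1 rfl
    refine ⟨_, h, ((u.1 - t.1 - s * ((u.1 - t.1) / s)).toNat, (u.2 - t.2 - s * ((u.2 - t.2) / s)).toNat),
      ⟨by simp only; omega, by simp only; omega⟩, ?_⟩
    ext
    · simp only [coarse]; omega
    · simp only [coarse]; omega

lemma fine_exists (s : ℕ) (hs : 0 < s) (t c : ℤ) (y : ℝ) (h1 : (c : ℝ) ≤ y) (h2 : y ≤ c + 1) :
    ∃ u : ℤ, (u - t) / s = c ∧ (u : ℝ) ≤ s * y + t ∧ s * y + t ≤ u + 1 := by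
  have hs' : (0 : ℝ) < s := by exact_mod_cast hs
  rcases eq_or_lt_of_le h2 with h | h
  · refine ⟨s * c + s - 1 + t, ?_, ?_, ?_⟩
    · rw [ediv_iff s hs]; omega
    · push_cast; rw [h]; nlinarith
    · push_cast; rw [h]; nlinarith
  · refine ⟨⌊s * y⌋ + t, ?_, ?_, ?_⟩
    · rw [ediv_iff s hs]
      constructor
      · have : s * c ≤ ⌊s * y⌋ := by
          rw [Int.le_floor]; push_cast; nlinarith
        omega
      · have : ⌊s * y⌋ < s * c + s := by
          rw [Int.floor_lt]; push_cast; nlinarith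
        omega
    · push_cast; linarith [Int.floor_le (s * y)]
    · push_cast; linarith [Int.lt_floor_add_one (s * y)]

lemma coarse_bound (s : ℕ) (hs : 0 < s) (t u : ℤ) (x : ℝ) (h1 : (u : ℝ) ≤ x) (h2 : x ≤ u + 1) :
    (((u - t) / s : ℤ) : ℝ) ≤ (s : ℝ)⁻¹ * (x - t) ∧ (s : ℝ)⁻¹ * (x - t) ≤ (((u - t) / s : ℤ) : ℝ) + 1 := by
  have hs' : (0 : ℝ) < s := by exact_mod_cast hs
  obtain ⟨a, b⟩ := (ediv_iff s hs (u - t) _).1 rfl
  set c := (u - t) / s
  have a' : (s : ℝ) * c ≤ u - t := by exact_mod_cast a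
  have b' : (u : ℝ) - t + 1 ≤ s * c + s := by
    have : u - t + 1 ≤ s * c + s := by omega
    exact_mod_cast this
  constructor
  · rw [le_inv_mul_iff₀ hs']; linarith
  · rw [inv_mul_le_iff₀ hs']; linarith

lemma region_place (s : ℕ) (hs : 0 < s) (t : ℤ × ℤ) (S : Finset (ℤ × ℤ)) :
    region (place s t S) = (fun x => (s : ℝ) • x + (!₂[(t.1 : ℝ), (t.2 : ℝ)] : Plane)) '' region S := by
  have hs' : (0 : ℝ) < s := by exact_mod_cast hs
  ext x
  simp only [region, Set.mem_iUnion, exists_prop, Set.mem_image]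
  constructor
  · rintro ⟨u, hu, h1, h2, h3, h4⟩
    rw [mem_place s hs] at hu
    refine ⟨(s : ℝ)⁻¹ • (x - !₂[(t.1 : ℝ), (t.2 : ℝ)]), ⟨_, hu, ?_⟩, ?_⟩
    · have a := coarse_bound s hs t.1 u.1 (x 0) h1 h2
      have b := coarse_bound s hs t.2 u.2 (x 1) h3 h4
      simp only [unitSquare, coarse, Set.mem_ofPred_eq, PiLp.smul_apply, PiLp.sub_apply, smul_eq_mul]
      simp only [Matrix.cons_val_zero, Matrix.cons_val_one]
      exact ⟨a.1, a.2, b.1, b.2⟩
    · rw [smul_smul, mul_inv_cancel₀ hs'.ne', one_smul, sub_add_cancel]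
  · rintro ⟨y, ⟨c, hc, h1, h2, h3, h4⟩, rfl⟩
    obtain ⟨u1, a1, a2, a3⟩ := fine_exists s hs t.1 c.1 (y 0) h1 h2
    obtain ⟨u2, b1, b2, b3⟩ := fine_exists s hs t.2 c.2 (y 1) h3 h4
    refine ⟨(u1, u2), ?_, ?_⟩
    · rw [mem_place s hs]
      simp only [coarse, a1, b1]
      exact hc
    · simp only [unitSquare, Set.mem_ofPred_eq, PiLp.smul_apply, PiLp.add_apply, smul_eq_mul]
      simp only [Matrix.cons_val_zero, Matrix.cons_val_one]
      exact ⟨a2, a3, b2, b3⟩

/-- adjacency inside `T` -/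
def Adj (T : Set (ℤ × ℤ)) (c d : ℤ × ℤ) : Prop := c ∈ T ∧ d ∈ T ∧ |c.1 - d.1| + |c.2 - d.2| = 1

abbrev Conn (T : Set (ℤ × ℤ)) := Relation.ReflTransGen (Adj T)

lemma Conn.symm' {T : Set (ℤ × ℤ)} {a b : ℤ × ℤ} (h : Conn T a b) : Conn T b a := by
  induction h with
  | refl => exact Relation.ReflTransGen.refl
  | tail _ h2 ih =>
    refine Relation.ReflTransGen.head ⟨h2.2.1, h2.1, ?_⟩ ih
    rw [abs_sub_comm, abs_sub_comm _ (Prod.snd _)]
    exact h2.2.2

lemma walkH (T : Set (ℤ × ℤ)) (x y : ℤ) (n : ℕ) (h : ∀ z, x ≤ z → z ≤ x + n → (z, y) ∈ T) :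
    Conn T (x, y) (x + n, y) := by
  induction n with
  | zero => simp only [Nat.cast_zero, add_zero]; exact Relation.ReflTransGen.refl
  | succ n ih =>
    refine Relation.ReflTransGen.tail (ih fun z a b => h z a (by push_cast; omega)) ⟨?_, ?_, ?_⟩
    · exact h _ (by omega) (by push_cast; omega)
    · exact h _ (by omega) (by push_cast; omega)
    · simp

lemma walkV (T : Set (ℤ × ℤ)) (x y : ℤ) (n : ℕ) (h : ∀ z, y ≤ z → z ≤ y + n → (x, z) ∈ T) :
    Conn T (x, y) (x, y + n) := by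
  induction n with
  | zero => simp only [Nat.cast_zero, add_zero]; exact Relation.ReflTransGen.refl
  | succ n ih =>
    refine Relation.ReflTransGen.tail (ih fun z a b => h z a (by push_cast; omega)) ⟨?_, ?_, ?_⟩
    · exact h _ (by omega) (by push_cast; omega)
    · exact h _ (by omega) (by push_cast; omega)
    · simp

lemma walkH' (T : Set (ℤ × ℤ)) (x x' y : ℤ) (h : ∀ z, min x x' ≤ z → z ≤ max x x' → (z, y) ∈ T) :
    Conn T (x, y) (x', y) := by
  rcases le_total x x' with hx | hx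
  · have := walkH T x y (x' - x).toNat (fun z a b => h z (by omega) (by omega))
    rwa [show x + ((x' - x).toNat : ℤ) = x' by omega] at this
  · have := walkH T x' y (x - x').toNat (fun z a b => h z (by omega) (by omega))
    rw [show x' + ((x - x').toNat : ℤ) = x by omega] at this
    exact this.symm'

lemma walkV' (T : Set (ℤ × ℤ)) (x y y' : ℤ) (h : ∀ z, min y y' ≤ z → z ≤ max y y' → (x, z) ∈ T) :
    Conn T (x, y) (x, y') := by
  rcases le_total y y' with hx | hx
  · have := walkV T x y (y' - y).toNat (fun z a b => h z (by omega) (by omega))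
    rwa [show y + ((y' - y).toNat : ℤ) = y' by omega] at this
  · have := walkV T x y' (y - y').toNat (fun z a b => h z (by omega) (by omega))
    rw [show y' + ((y - y').toNat : ℤ) = y by omega] at this
    exact this.symm'

/-- two squares of a rectangle inside `T` are connected -/
lemma walkRect (T : Set (ℤ × ℤ)) (a b : ℤ × ℤ)
    (h : ∀ x y, min a.1 b.1 ≤ x → x ≤ max a.1 b.1 → min a.2 b.2 ≤ y → y ≤ max a.2 b.2 → (x, y) ∈ T) :
    Conn T a b := by
  have h1 : Conn T (a.1, a.2) (b.1, a.2) :=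
    walkH' T _ _ _ (fun z p q => h z _ p q (by omega) (by omega))
  have h2 : Conn T (b.1, a.2) (b.1, b.2) :=
    walkV' T _ _ _ (fun z p q => h _ z (by omega) (by omega) p q)
  exact h1.trans h2

lemma EdgeConnected.coarse {T : Set (ℤ × ℤ)} (h : EdgeConnected T) (s : ℕ) (hs : 0 < s) (t : ℤ × ℤ) :
    EdgeConnected {u | coarse s t u ∈ T} := by
  have key : ∀ c d, Conn T c d → c ∈ T → ∀ a b, MP_ea7ca7_co.coarse s t a = c →
      MP_ea7ca7_co.coarse s t b = d → Conn {u | MP_ea7ca7_co.coarse s t u ∈ T} a b := by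
    intro c d hcd hc
    induction hcd with
    | refl =>
      intro a b ha hb
      apply walkRect
      intro x y h1 h2 h3 h4
      have a1 := (ediv_iff s hs _ _).1 (congrArg Prod.fst ha)
      have a2 := (ediv_iff s hs _ _).1 (congrArg Prod.snd ha)
      have b1 := (ediv_iff s hs _ _).1 (congrArg Prod.fst hb)
      have b2 := (ediv_iff s hs _ _).1 (congrArg Prod.snd hb)
      have : MP_ea7ca7_co.coarse s t (x, y) = c := by
        ext
        · simp only [MP_ea7ca7_co.coarse]; rw [ediv_iff s hs]; omega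
        · simp only [MP_ea7ca7_co.coarse]; rw [ediv_iff s hs]; omega
      show MP_ea7ca7_co.coarse s t (x, y) ∈ T
      rw [this]; exact hc
    | @tail d e _ hde ih =>
      intro a b ha hb
      obtain ⟨hd, he, hadj⟩ := hde
      have b1 := (ediv_iff s hs _ _).1 (congrArg Prod.fst hb)
      have b2 := (ediv_iff s hs _ _).1 (congrArg Prod.snd hb)
      have hm : MP_ea7ca7_co.coarse s t
          (b.1 + s * (d.1 - e.1), b.2 + s * (d.2 - e.2)) = d := by
        have e1 : (s : ℤ) * (d.1 - e.1) = s * d.1 - s * e.1 := by ring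
        have e2 : (s : ℤ) * (d.2 - e.2) = s * d.2 - s * e.2 := by ring
        ext
        · simp only [MP_ea7ca7_co.coarse]; rw [ediv_iff s hs]; omega
        · simp only [MP_ea7ca7_co.coarse]; rw [ediv_iff s hs]; omega
      refine (ih a _ ha hm).trans ?_
      apply walkRect
      intro x y h1 h2 h3 h4
      show MP_ea7ca7_co.coarse s t (x, y) ∈ T
      have hcases : (d.1 = e.1 + 1 ∧ d.2 = e.2) ∨ (d.1 = e.1 - 1 ∧ d.2 = e.2) ∨
          (d.1 = e.1 ∧ d.2 = e.2 + 1) ∨ (d.1 = e.1 ∧ d.2 = e.2 - 1) := by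
        rcases abs_cases (d.1 - e.1) with p | p <;> rcases abs_cases (d.2 - e.2) with q | q <;> omega
      have hx : MP_ea7ca7_co.coarse s t (x, y) = d ∨ MP_ea7ca7_co.coarse s t (x, y) = e := by
        simp only [MP_ea7ca7_co.coarse, Prod.ext_iff, ediv_iff s hs]
        rcases hcases with ⟨p, q⟩ | ⟨p, q⟩ | ⟨p, q⟩ | ⟨p, q⟩ <;>
          simp only [p, q, mul_add, mul_sub, mul_one] at * <;> omega
      rcases hx with hx | hx <;> rw [hx] <;> assumption
  intro a ha b hb
  exact key _ _ (h _ ha _ hb) ha a b rfl rfl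

theorem IsCubeNet.place {S : Finset (ℤ × ℤ)} (h : IsCubeNet S) (s : ℕ) (hs : 0 < s) (t : ℤ × ℤ) :
    IsCubeNet (place s t S) := by
  obtain ⟨⟨⟨c, hc⟩, h1, h2⟩, l, hl, hf⟩ := h
  have hs' : (0 : ℝ) < s := by exact_mod_cast hs
  refine ⟨⟨⟨(s * c.1 + t.1, s * c.2 + t.2), ?_⟩, ?_, ?_⟩, s * l, mul_pos hs' hl, ?_⟩
  · rw [mem_place s hs]
    have : coarse s t (s * c.1 + t.1, s * c.2 + t.2) = c := by
      ext
      · simp only [coarse]; rw [ediv_iff s hs]; omega
      · simp only [coarse]; rw [ediv_iff s hs]; omega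
    rw [this]; exact hc
  · convert h1.coarse s hs t using 1
    ext u; simp [mem_place s hs]
  · convert h2.coarse s hs t using 1
    ext u; simp [mem_place s hs]
  · rw [region_place s hs]
    exact hf.sim s hs' _

end Pool.Agent.Lib.MP_ea7ca7_co
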